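import Mathlib

set_option autoImplicit false

open MeasureTheory Set Metric Filter Topology

namespace Pool.Agent.Y288.SN

abbrev E (n : ℕ) := EuclideanSpace ℝ (Fin n)

/-- smooth functions with compact support contained in `Ω` -/
def IsTest {n : ℕ} (Ω : Set (E n)) (φ : E n → ℝ) : Prop :=
  ContDiff ℝ (⊤ : ℕ∞) φ ∧ HasCompactSupport φ ∧ tsupport φ ⊆ Ω

/-- first Dirichlet eigenvalue -/
noncomputable def lam1 {n : ℕ} (Ω : Set (E n)) : ℝ :=
  sInf {r : ℝ | ∃ φ, IsTest Ω φ ∧ φ ≠ 0 ∧ r = (∫ x, ‖gradient φ x‖ ^ 2) / ∫ x, φ x ^ 2}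

variable {n : ℕ} {Ω : Set (E n)} {φ ψ η g : E n → ℝ}

theorem norm_grad (φ : E n → ℝ) (x : E n) : ‖gradient φ x‖ = ‖fderiv ℝ φ x‖ := by
  unfold gradient
  exact (InnerProductSpace.toDual ℝ (E n)).symm.norm_map _

theorem inner_grad (φ : E n → ℝ) (x v : E n) : inner ℝ (gradient φ x) v = fderiv ℝ φ x v := by
  unfold gradient
  simp

namespace IsTest

theorem cont (h : IsTest Ω φ) : Continuous φ := h.1.continuous
theorem diff (h : IsTest Ω φ) : Differentiable ℝ φ := h.1.differentiable (by simp)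
theorem contGrad (h : IsTest Ω φ) : Continuous (gradient φ) := by
  have h1 : Continuous (fderiv ℝ φ) := h.1.continuous_fderiv (by simp)
  exact (InnerProductSpace.toDual ℝ (E n)).symm.continuous.comp h1
theorem contFderiv (h : IsTest Ω φ) : Continuous (fderiv ℝ φ) := h.1.continuous_fderiv (by simp)

theorem grad_support (h : IsTest Ω φ) : HasCompactSupport (gradient φ) := by
  have h1 : HasCompactSupport (fderiv ℝ φ) := h.2.1.fderiv ℝ
  exact h1.comp_left (g := (InnerProductSpace.toDual ℝ (E n)).symm) (map_zero _)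

theorem int_sq (h : IsTest Ω φ) : Integrable (fun x => φ x ^ 2) := by
  refine Continuous.integrable_of_hasCompactSupport (h.cont.pow 2) ?_
  exact h.2.1.comp_left (g := fun t : ℝ => t ^ 2) (by simp)

theorem int_mul (h : IsTest Ω φ) (hg : Continuous g) : Integrable (fun x => φ x * g x) :=
  Continuous.integrable_of_hasCompactSupport (h.cont.mul hg) h.2.1.mul_right

theorem int_gradsq (h : IsTest Ω φ) : Integrable (fun x => ‖gradient φ x‖ ^ 2) := by
  refine Continuous.integrable_of_hasCompactSupport (h.contGrad.norm.pow 2) ?_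
  exact h.grad_support.comp_left (g := fun t : E n => ‖t‖ ^ 2) (by simp)

theorem int_inner (h : IsTest Ω φ) (k : IsTest Ω ψ) :
    Integrable (fun x => inner ℝ (gradient φ x) (gradient ψ x)) := by
  refine Continuous.integrable_of_hasCompactSupport (h.contGrad.inner k.contGrad) ?_
  exact h.grad_support.mono (fun x hx => by
    simp only [Function.mem_support] at hx ⊢
    intro h0
    rw [h0, inner_zero_left] at hx
    exact hx rfl)

theorem add (h : IsTest Ω φ) (k : IsTest Ω ψ) : IsTest Ω (fun x => φ x + ψ x) := by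
  refine ⟨h.1.add k.1, h.2.1.add k.2.1, ?_⟩
  refine (closure_mono (Function.support_add φ ψ)).trans ?_
  rw [closure_union]
  exact union_subset h.2.2 k.2.2

theorem smul (h : IsTest Ω φ) (c : ℝ) : IsTest Ω (fun x => c * φ x) := by
  refine ⟨contDiff_const.mul h.1, h.2.1.mul_left, ?_⟩
  refine (closure_mono ?_).trans h.2.2
  intro x hx
  simp only [Function.mem_support] at hx ⊢
  intro h0
  rw [h0, mul_zero] at hx
  exact hx rfl

theorem mul (h : IsTest Ω φ) (hη : ContDiff ℝ (⊤ : ℕ∞) η) : IsTest Ω (fun x => η x * φ x) := by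
  refine ⟨hη.mul h.1, h.2.1.mul_left, ?_⟩
  refine (closure_mono ?_).trans h.2.2
  intro x hx
  simp only [Function.mem_support] at hx ⊢
  intro h0
  rw [h0, mul_zero] at hx
  exact hx rfl

theorem pos_of_ne (h : IsTest Ω φ) (h0 : φ ≠ 0) : 0 < ∫ x, φ x ^ 2 := by
  obtain ⟨x, hx⟩ := Function.ne_iff.1 h0
  refine Continuous.integral_pos_of_hasCompactSupport_nonneg_nonzero (x := x)
    (h.cont.pow 2) ?_ (fun x => by positivity) ?_
  · exact h.2.1.comp_left (g := fun t : ℝ => t ^ 2) (by simp)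
  · exact pow_ne_zero 2 hx

end IsTest

theorem lam_bdd (Ω : Set (E n)) :
    BddBelow {r : ℝ | ∃ φ, IsTest Ω φ ∧ φ ≠ 0 ∧ r = (∫ x, ‖gradient φ x‖ ^ 2) / ∫ x, φ x ^ 2} := by
  refine ⟨0, ?_⟩
  rintro r ⟨φ, -, -, rfl⟩
  exact div_nonneg (integral_nonneg fun x => by positivity) (integral_nonneg fun x => by positivity)

theorem lam_nonneg (Ω : Set (E n)) : 0 ≤ lam1 Ω := by
  refine Real.sInf_nonneg ?_
  rintro r ⟨φ, -, -, rfl⟩
  exact div_nonneg (integral_nonneg fun x => by positivity) (integral_nonneg fun x => by positivity)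

theorem lam_le (h : IsTest Ω φ) : lam1 Ω * ∫ x, φ x ^ 2 ≤ ∫ x, ‖gradient φ x‖ ^ 2 := by
  by_cases h0 : φ = 0
  · subst h0
    simp only [Pi.zero_apply, ne_eq, OfNat.ofNat_ne_zero, not_false_eq_true, zero_pow,
      integral_zero, mul_zero]
    exact integral_nonneg fun x => by positivity
  · have h1 := csInf_le (lam_bdd Ω) ⟨φ, h, h0, rfl⟩
    rwa [le_div_iff₀ (h.pos_of_ne h0)] at h1

/-- the bilinear form `∫ ∇φ·∇ψ - λ ∫ φ ψ` -/
noncomputable def q (lam : ℝ) (φ ψ : E n → ℝ) : ℝ :=
  (∫ x, inner ℝ (gradient φ x) (gradient ψ x)) - lam * ∫ x, φ x * ψ x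

theorem gradient_add' (hφ : Differentiable ℝ φ) (hψ : Differentiable ℝ ψ) (x : E n) :
    gradient (fun x => φ x + ψ x) x = gradient φ x + gradient ψ x := by
  unfold gradient
  have := fderiv_fun_add (hφ x) (hψ x)
  rw [this, map_add]

theorem gradient_smul' (hφ : Differentiable ℝ φ) (c : ℝ) (x : E n) :
    gradient (fun x => c * φ x) x = c • gradient φ x := by
  unfold gradient
  have := fderiv_const_mul (hφ x) c
  rw [this, map_smulₛₗ]
  simp

theorem gradient_mul' (hη : Differentiable ℝ η) (hφ : Differentiable ℝ φ) (x : E n) :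
    gradient (fun x => η x * φ x) x = η x • gradient φ x + φ x • gradient η x := by
  unfold gradient
  have := fderiv_fun_mul (hη x) (hφ x)
  rw [this, map_add, map_smulₛₗ, map_smulₛₗ]
  simp

theorem q_nonneg (h : IsTest Ω φ) : 0 ≤ q (lam1 Ω) φ φ := by
  unfold q
  have h1 := lam_le h
  have e1 : (∫ x, inner ℝ (gradient φ x) (gradient φ x)) = ∫ x, ‖gradient φ x‖ ^ 2 := by
    congr 1; ext x; rw [real_inner_self_eq_norm_sq]
  have e2 : (∫ x, φ x * φ x) = ∫ x, φ x ^ 2 := by congr 1; ext x; ring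
  rw [e1, e2]; linarith

theorem q_symm (lam : ℝ) : q lam φ ψ = q lam ψ φ := by
  unfold q
  congr 1
  · congr 1; ext x; rw [real_inner_comm]
  · congr 2; ext x; ring

theorem q_expand (lam : ℝ) (h : IsTest Ω φ) (k : IsTest Ω ψ) (t : ℝ) :
    q lam (fun x => φ x + t * ψ x) (fun x => φ x + t * ψ x) =
      q lam φ φ + 2 * t * q lam φ ψ + t ^ 2 * q lam ψ ψ := by
  have kt := k.smul t
  unfold q
  have e1 : ∀ x, inner ℝ (gradient (fun x => φ x + t * ψ x) x)
      (gradient (fun x => φ x + t * ψ x) x) =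
      inner ℝ (gradient φ x) (gradient φ x) + (2 * t * inner ℝ (gradient φ x) (gradient ψ x) +
        t ^ 2 * inner ℝ (gradient ψ x) (gradient ψ x)) := by
    intro x
    rw [gradient_add' h.diff kt.diff, gradient_smul' k.diff]
    simp only [inner_add_left, inner_add_right, inner_smul_left, inner_smul_right, conj_trivial]
    rw [real_inner_comm (gradient ψ x) (gradient φ x)]
    ring
  have e2 : ∀ x, (φ x + t * ψ x) * (φ x + t * ψ x) = φ x * φ x + (2 * t * (φ x * ψ x) +
      t ^ 2 * (ψ x * ψ x)) := by intro x; ring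
  simp_rw [e1, e2]
  have i1 := h.int_inner h
  have i2 := (h.int_inner k).const_mul (2 * t)
  have i3 := (k.int_inner k).const_mul (t ^ 2)
  have j1 := h.int_mul h.cont
  have j2 := (h.int_mul k.cont).const_mul (2 * t)
  have j3 := (k.int_mul k.cont).const_mul (t ^ 2)
  have i23 : Integrable (fun x => 2 * t * inner ℝ (gradient φ x) (gradient ψ x) +
      t ^ 2 * inner ℝ (gradient ψ x) (gradient ψ x)) := i2.add i3
  have j23 : Integrable (fun x => 2 * t * (φ x * ψ x) + t ^ 2 * (ψ x * ψ x)) := j2.add j3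
  rw [integral_add i1 i23, integral_add i2 i3, integral_add j1 j23,
    integral_add j2 j3, integral_const_mul, integral_const_mul, integral_const_mul,
    integral_const_mul]
  ring

theorem q_cs (h : IsTest Ω φ) (k : IsTest Ω ψ) :
    q (lam1 Ω) φ ψ ^ 2 ≤ q (lam1 Ω) φ φ * q (lam1 Ω) ψ ψ := by
  have key : ∀ t : ℝ, 0 ≤ q (lam1 Ω) ψ ψ * (t * t) + 2 * q (lam1 Ω) φ ψ * t + q (lam1 Ω) φ φ := by
    intro t
    have := q_nonneg (h.add (k.smul t))
    rw [q_expand _ h k t] at this
    linarith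
  have := discrim_le_zero key
  unfold discrim at this
  nlinarith

/-- integration by parts in the direction `v` -/
theorem ibp (h : IsTest Ω φ) (hg : ContDiff ℝ 1 g) (v : E n) :
    ∫ x, φ x * fderiv ℝ φ x v * g x = -(1 / 2) * ∫ x, φ x ^ 2 * fderiv ℝ g x v := by
  have hφ2 : Differentiable ℝ (fun x => φ x ^ 2) := h.diff.pow 2
  have hd : ∀ x, fderiv ℝ (fun x => φ x ^ 2) x v = 2 * (φ x * fderiv ℝ φ x v) := by
    intro x
    rw [fderiv_fun_pow 2 (h.diff x)]
    simp
    ring
  have hgc : Continuous (fun x => fderiv ℝ g x v) :=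
    (hg.continuous_fderiv (by simp)).clm_apply continuous_const
  have hφc : Continuous (fun x => fderiv ℝ φ x v) := h.contFderiv.clm_apply continuous_const
  have cs : HasCompactSupport (fun x => φ x ^ 2) :=
    h.2.1.comp_left (g := fun t : ℝ => t ^ 2) (by simp)
  have i1 : Integrable (fun x => fderiv ℝ (fun x => φ x ^ 2) x v * g x) := by
    simp_rw [hd]
    refine Continuous.integrable_of_hasCompactSupport
      ((continuous_const.mul (h.cont.mul hφc)).mul hg.continuous) ?_
    exact (h.2.1.mul_right.mul_left).mul_right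
  have i2 : Integrable (fun x => φ x ^ 2 * fderiv ℝ g x v) :=
    Continuous.integrable_of_hasCompactSupport ((h.cont.pow 2).mul hgc) cs.mul_right
  have i3 : Integrable (fun x => φ x ^ 2 * g x) :=
    Continuous.integrable_of_hasCompactSupport ((h.cont.pow 2).mul hg.continuous) cs.mul_right
  have := integral_mul_fderiv_eq_neg_fderiv_mul_of_integrable i1 i2 i3 (fun x _ => hφ2 x)
    (fun x _ => hg.differentiable (by simp) x)
  rw [this]
  simp_rw [hd]
  have e : ∀ x, 2 * (φ x * fderiv ℝ φ x v) * g x = 2 * (φ x * fderiv ℝ φ x v * g x) := by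
    intro x; ring
  simp_rw [e]
  rw [integral_const_mul]
  ring

end Pool.Agent.Y288.SN
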