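import Pool.Agent.Y288.SN.Gauss

set_option autoImplicit false

open MeasureTheory Set Metric Filter Topology

namespace Pool.Agent.Y288.SN

variable {n : ℕ} {Ω : Set (E n)} {u : E n → ℝ} {φs : ℕ → E n → ℝ}

/-- volume of the unit ball -/
noncomputable def om (n : ℕ) : ℝ := (volume : Measure (E n)).real (ball 0 1)

theorem om_pos (n : ℕ) : 0 < om n := by
  unfold om
  exact ENNReal.toReal_pos (measure_ball_pos _ _ one_pos).ne' measure_ball_lt_top.ne

theorem vol_closedBall (z : E n) {r : ℝ} (hr : 0 < r) :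
    (volume : Measure (E n)).real (closedBall z r) = r ^ n * om n := by
  unfold om Measure.real
  rw [Measure.addHaar_closedBall _ _ hr.le, ENNReal.toReal_mul, ENNReal.toReal_ofReal (by positivity)]
  simp

theorem rpow_half {r : ℝ} (hr : 0 < r) : (r ^ 2) ^ (-((n : ℝ) / 2)) = (r ^ n)⁻¹ := by
  rw [← Real.rpow_natCast r 2, ← Real.rpow_mul hr.le, ← Real.rpow_natCast r n, ← Real.rpow_neg hr.le]
  congr 1
  push_cast
  ring

theorem gint_le_exp (h : MinSeq Ω u φs) (z : E n) {e : E n} (he : ‖e‖ = 1) {ρ : ℝ} (hρ : 0 < ρ) :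
    gint u z (ρ ^ 2) ≤ ∫ x, u x ^ 2 * Real.exp (-((inner ℝ e x - inner ℝ e z) ^ 2 / (4 * ρ ^ 2))) := by
  unfold gint
  refine integral_mono ?_ ?_ fun x => ?_
  · exact int_bdd_weight h.memu (W := 1) (contDiff_gk _ z).continuous fun x => by
      rw [abs_of_pos (gk_pos _ _ _)]; exact gk_le (by positivity) z x
  · refine int_bdd_weight h.memu (W := 1) (by fun_prop) fun x => ?_
    rw [abs_of_pos (Real.exp_pos _), Real.exp_le_one_iff]
    have : 0 ≤ (inner ℝ e x - inner ℝ e z) ^ 2 / (4 * ρ ^ 2) := by positivity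
    linarith
  · refine mul_le_mul_of_nonneg_left ?_ (sq_nonneg _)
    unfold gk
    rw [Real.exp_le_exp, neg_le_neg_iff]
    refine div_le_div_of_nonneg_right ?_ (by positivity)
    rw [← inner_sub_right]
    have h1 : |inner ℝ e (x - z)| ≤ ‖x - z‖ := by
      have := abs_real_inner_le_norm e (x - z)
      rwa [he, one_mul] at this
    rw [← sq_abs (inner ℝ e (x - z))]
    exact pow_le_pow_left₀ (abs_nonneg _) h1 2

theorem ball_int_le (h : MinSeq Ω u φs) (z : E n) {r : ℝ} (hr : 0 < r) :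
    ∫ x in closedBall z r, u x ^ 2 ≤ Real.exp (1 / 4) * gint u z (r ^ 2) := by
  have ig : Integrable (fun x => u x ^ 2 * gk (r ^ 2) z x) :=
    int_bdd_weight h.memu (W := 1) (contDiff_gk _ z).continuous fun x => by
      rw [abs_of_pos (gk_pos _ _ _)]; exact gk_le (by positivity) z x
  have h1 : ∫ x in closedBall z r, u x ^ 2 ≤
      ∫ x in closedBall z r, Real.exp (1 / 4) * (u x ^ 2 * gk (r ^ 2) z x) := by
    refine setIntegral_mono_on (memLp_sq_int h.memu).integrableOn (ig.const_mul _).integrableOn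
      measurableSet_closedBall fun x hx => ?_
    rw [mem_closedBall, dist_eq_norm] at hx
    have h2 : Real.exp (-(1 / 4)) ≤ gk (r ^ 2) z x := by
      unfold gk
      rw [Real.exp_le_exp, neg_le_neg_iff, div_le_div_iff₀ (by positivity) (by norm_num)]
      nlinarith [norm_nonneg (x - z)]
    have h3 : Real.exp (1 / 4) * Real.exp (-(1 / 4)) = 1 := by rw [← Real.exp_add]; simp
    have h4 : 0 < Real.exp (1 / 4) := Real.exp_pos _
    have h5 : 1 ≤ Real.exp (1 / 4) * gk (r ^ 2) z x := by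
      calc (1 : ℝ) = Real.exp (1 / 4) * Real.exp (-(1 / 4)) := h3.symm
        _ ≤ _ := mul_le_mul_of_nonneg_left h2 h4.le
    nlinarith [sq_nonneg (u x)]
  refine h1.trans ?_
  unfold gint
  rw [← integral_const_mul]
  refine setIntegral_le_integral (ig.const_mul _) (Eventually.of_forall fun x => ?_)
  have := gk_pos (r ^ 2) z x
  simp only [Pi.zero_apply]
  positivity

/-- pointwise bound -/
theorem point_bound (h : MinSeq Ω u φs) {e : E n} (he : ‖e‖ = 1) {ρ L K : ℝ} (hρ : 0 < ρ)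
    (hL : ρ / 8 ≤ L) (hK0 : 0 ≤ K) (hK : lam1 Ω - lamDeg Ω e ≤ K / L ^ 2) :
    ∀ᵐ x, u x ^ 2 ≤ Real.exp (1 / 4) / om n * Real.exp (2 * lam1 Ω * ρ ^ 2) * (ρ ^ n)⁻¹ *
      (ρ * (1 + 2 * K) / (c0 * L)) * ∫ x, u x ^ 2 := by
  have hL0 : 0 < L := by linarith
  set M := Real.exp (1 / 4) / om n * Real.exp (2 * lam1 Ω * ρ ^ 2) * (ρ ^ n)⁻¹ *
      (ρ * (1 + 2 * K) / (c0 * L)) * ∫ x, u x ^ 2 with hM
  have hslab : ∀ z : E n, gint u z (ρ ^ 2) ≤ ρ * (1 + 2 * K) / (c0 * L) * ∫ x, u x ^ 2 := by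
    intro z
    refine (gint_le_exp h z he hρ).trans ?_
    have h1 := slab_bound h he hρ hL hK hK0 (c := inner ℝ e z)
    have h2 : (∫ x, u x ^ 2 * (1 / ρ * Real.exp (-((inner ℝ e x - inner ℝ e z) ^ 2 / (4 * ρ ^ 2))))) =
        1 / ρ * ∫ x, u x ^ 2 * Real.exp (-((inner ℝ e x - inner ℝ e z) ^ 2 / (4 * ρ ^ 2))) := by
      rw [← integral_const_mul]
      congr 1; ext x; ring
    rw [h2] at h1
    set J := ∫ x, u x ^ 2 * Real.exp (-((inner ℝ e x - inner ℝ e z) ^ 2 / (4 * ρ ^ 2)))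
    have hc := c0_pos
    have h3 : J = ρ / c0 * (c0 * (1 / ρ * J)) := by field_simp
    rw [h3]
    calc ρ / c0 * (c0 * (1 / ρ * J)) ≤ ρ / c0 * ((1 + 2 * K) / L * ∫ x, u x ^ 2) :=
          mul_le_mul_of_nonneg_left h1 (by positivity)
      _ = _ := by field_simp
  have hball : ∀ z : E n, ∀ r : ℝ, 0 < r → r ≤ ρ → ⨍ x in closedBall z r, u x ^ 2 ≤ M := by
    intro z r hr hrρ
    rw [setAverage_eq, vol_closedBall z hr, smul_eq_mul]
    have hom := om_pos n
    have h1 := ball_int_le h z hr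
    have h2 := mono_gint h z (show r ^ 2 ∈ Ioi (0 : ℝ) from by simp; positivity)
      (show ρ ^ 2 ∈ Ioi (0 : ℝ) from by simp; positivity) (by gcongr)
    simp only at h2
    rw [rpow_half hr, rpow_half hρ] at h2
    have h3 : (1 : ℝ) ≤ Real.exp (2 * lam1 Ω * r ^ 2) := by
      rw [Real.one_le_exp_iff]
      have := lam_nonneg Ω
      positivity
    have hg0 : 0 ≤ gint u z (r ^ 2) :=
      integral_nonneg fun x => mul_nonneg (sq_nonneg _) (gk_pos _ _ _).le
    have h4 : (r ^ n)⁻¹ * gint u z (r ^ 2) ≤ Real.exp (2 * lam1 Ω * ρ ^ 2) * (ρ ^ n)⁻¹ *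
        gint u z (ρ ^ 2) := by
      refine le_trans ?_ h2
      rw [mul_assoc]
      exact le_mul_of_one_le_left (by positivity) h3
    have hrn : 0 < r ^ n := by positivity
    calc (r ^ n * om n)⁻¹ * ∫ x in closedBall z r, u x ^ 2
        ≤ (r ^ n * om n)⁻¹ * (Real.exp (1 / 4) * gint u z (r ^ 2)) :=
          mul_le_mul_of_nonneg_left h1 (by positivity)
      _ = Real.exp (1 / 4) / om n * ((r ^ n)⁻¹ * gint u z (r ^ 2)) := by
          field_simp
      _ ≤ Real.exp (1 / 4) / om n * (Real.exp (2 * lam1 Ω * ρ ^ 2) * (ρ ^ n)⁻¹ *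
            gint u z (ρ ^ 2)) := mul_le_mul_of_nonneg_left h4 (by positivity)
      _ ≤ Real.exp (1 / 4) / om n * (Real.exp (2 * lam1 Ω * ρ ^ 2) * (ρ ^ n)⁻¹ *
            (ρ * (1 + 2 * K) / (c0 * L) * ∫ x, u x ^ 2)) := by
          have := hslab z
          gcongr
      _ = M := by rw [hM]; ring
  have hli : LocallyIntegrable (fun x => u x ^ 2) (volume : Measure (E n)) :=
    (memLp_sq_int h.memu).locallyIntegrable
  filter_upwards [IsUnifLocDoublingMeasure.ae_tendsto_average (μ := (volume : Measure (E n))) hli 1]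
    with x hx
  have h1 := hx (l := 𝓝[>] (0 : ℝ)) (fun _ : ℝ => x) (fun r => r) tendsto_id (by
    filter_upwards [self_mem_nhdsWithin] with r hr
    rw [mem_Ioi] at hr
    simp only [one_mul, mem_closedBall, dist_self]
    exact hr.le)
  refine le_of_tendsto h1 ?_
  filter_upwards [Ioc_mem_nhdsGT hρ] with r hr
  exact hball x r hr.1 hr.2

end Pool.Agent.Y288.SN
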