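import Pool.Agent.Y288.SN.Isom
import Pool.Agent.Y288.SN.PointBound

set_option autoImplicit false

open MeasureTheory Set Metric Filter Topology

namespace Pool.Agent.Y288.SN

/-- the constant in the comparison of the two eigenvalues -/
noncomputable def Kn (n : ℕ) : ℝ := A0 + Cn n / 4

theorem Kn_nonneg (n : ℕ) : 0 ≤ Kn n := by
  unfold Kn
  have := A0_nonneg
  have := Cn_nonneg n
  positivity

/-- arithmetic -/
theorem gap_arith {lam Λ A C θ D' D L ρ : ℝ} (_hA : 0 ≤ A) (hC : 0 ≤ C) (hρ : 0 < ρ) (hD : 0 < D)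
    (hL : 0 < L) (hDD : D / 2 ≤ D') (hLD : L ≤ D / 8) (hθ : θ = 2 * L / D')
    (hcyl : lam ≤ A / (θ * D' / 2) ^ 2 + Λ / (1 - θ) ^ 2) (hΛ0 : 0 ≤ Λ)
    (hΛ : Λ ≤ 4 * C / ρ ^ 2) (hcube : L ^ 3 = ρ ^ 2 * D / 512) :
    lam - Λ ≤ (A + C / 4) / L ^ 2 := by
  have hD' : 0 < D' := by linarith
  have hθ0 : 0 < θ := by rw [hθ]; positivity
  have hθ2 : θ ≤ 4 * L / D := by
    rw [hθ, div_le_div_iff₀ hD' hD]; nlinarith
  have hθ1 : θ ≤ 1 / 2 := by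
    refine hθ2.trans ?_
    rw [div_le_iff₀ hD]; linarith
  have e1 : θ * D' / 2 = L := by rw [hθ]; field_simp
  rw [e1] at hcyl
  have h1 : Λ / (1 - θ) ^ 2 - Λ ≤ Λ * (8 * θ) := by
    have h2 : 0 < (1 - θ) ^ 2 := by
      have : 0 < 1 - θ := by linarith
      positivity
    have h3 : Λ / (1 - θ) ^ 2 - Λ = Λ * ((1 - (1 - θ) ^ 2) / (1 - θ) ^ 2) := by
      rw [sub_div, div_self h2.ne']
      ring
    rw [h3]
    refine mul_le_mul_of_nonneg_left ?_ hΛ0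
    rw [div_le_iff₀ h2]
    have h5 : (1 / 4 : ℝ) ≤ (1 - θ) ^ 2 := by nlinarith
    nlinarith
  have h4 : Λ * (8 * θ) ≤ 4 * C / ρ ^ 2 * (8 * (4 * L / D)) := by gcongr
  have e5 : 4 * C / ρ ^ 2 * (8 * (4 * L / D)) = C / 4 / L ^ 2 := by
    have e6 : ρ ^ 2 * D = 512 * L ^ 3 := by linarith
    have e7 : 4 * C / ρ ^ 2 * (8 * (4 * L / D)) = 128 * C * L / (ρ ^ 2 * D) := by
      field_simp; ring
    rw [e7, e6]
    field_simp
    ring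
  rw [e5] at h4
  have e8 : (A + C / 4) / L ^ 2 = A / L ^ 2 + C / 4 / L ^ 2 := by ring
  rw [e8]
  linarith

/-- constant of the pointwise bound -/
noncomputable def Mn (n : ℕ) : ℝ :=
  Real.exp (1 / 4) / om n * Real.exp (8 * Cn n) * (8 * (1 + 2 * Kn n) / c0)

theorem Mn_pos (n : ℕ) : 0 < Mn n := by
  unfold Mn
  have := om_pos n
  have := Kn_nonneg n
  have := c0_pos
  positivity

theorem pointwise {d : ℕ} {Ω : Set (E (d + 1))} {u : E (d + 1) → ℝ} {φs : ℕ → E (d + 1) → ℝ}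
    (h : MinSeq Ω u φs) (hΩ : IsOpen Ω) (hconv : Convex ℝ Ω) {ρ D : ℝ} (hρ : 0 < ρ) (hρD : ρ ≤ D)
    {z p q : E (d + 1)} (hball : ball z (ρ / 2) ⊆ Ω) (hp : p ∈ Ω) (hq : q ∈ Ω)
    (hpq : D / 2 ≤ ‖q - p‖) :
    ∀ᵐ x, u x ^ 2 ≤ Mn (d + 1) * ((ρ ^ (d + 1))⁻¹ * (ρ / D) ^ (1 / 3 : ℝ)) * ∫ x, u x ^ 2 := by
  have hD : 0 < D := lt_of_lt_of_le hρ hρD
  have hD' : 0 < ‖q - p‖ := by linarith
  set D' := ‖q - p‖ with hD'def
  set e : E (d + 1) := D'⁻¹ • (q - p) with he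
  have hen : ‖e‖ = 1 := by
    rw [he, norm_smul, Real.norm_eq_abs, abs_of_pos (by positivity), ← hD'def,
      inv_mul_cancel₀ hD'.ne']
  have hq' : p + D' • e ∈ Ω := by
    rw [he, smul_smul, mul_inv_cancel₀ hD'.ne', one_smul]
    simpa using hq
  set L : ℝ := ρ ^ (2 / 3 : ℝ) * D ^ (1 / 3 : ℝ) / 8 with hL
  have hL0 : 0 < L := by positivity
  have hcube : L ^ 3 = ρ ^ 2 * D / 512 := by
    have e1 : (ρ ^ (2 / 3 : ℝ)) ^ 3 = ρ ^ 2 := by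
      rw [← Real.rpow_natCast, ← Real.rpow_mul hρ.le, ← Real.rpow_natCast ρ 2]
      norm_num
    have e2 : (D ^ (1 / 3 : ℝ)) ^ 3 = D := by
      rw [← Real.rpow_natCast, ← Real.rpow_mul hD.le]
      norm_num
    rw [hL, div_pow, mul_pow, e1, e2]
    norm_num
  have hLρ : ρ / 8 ≤ L := by
    rw [hL]
    have e1 : ρ = ρ ^ (2 / 3 : ℝ) * ρ ^ (1 / 3 : ℝ) := by
      rw [← Real.rpow_add hρ]; norm_num
    have h2 : ρ ^ (2 / 3 : ℝ) * ρ ^ (1 / 3 : ℝ) ≤ ρ ^ (2 / 3 : ℝ) * D ^ (1 / 3 : ℝ) :=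
      mul_le_mul_of_nonneg_left (Real.rpow_le_rpow hρ.le hρD (by norm_num)) (by positivity)
    linarith
  have hLD : L ≤ D / 8 := by
    rw [hL]
    have e1 : D = D ^ (2 / 3 : ℝ) * D ^ (1 / 3 : ℝ) := by
      rw [← Real.rpow_add hD]; norm_num
    have h2 : ρ ^ (2 / 3 : ℝ) * D ^ (1 / 3 : ℝ) ≤ D ^ (2 / 3 : ℝ) * D ^ (1 / 3 : ℝ) :=
      mul_le_mul_of_nonneg_right (Real.rpow_le_rpow hρ.le hρD (by norm_num)) (by positivity)
    linarith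
  set θ : ℝ := 2 * L / D' with hθ
  have hθ0 : 0 < θ := by positivity
  have hθ1 : θ < 1 := by
    rw [hθ, div_lt_one hD']; linarith
  have hcyl := cyl_gen hΩ hconv hen hD' hp hq' hθ0 hθ1
  have hlam : lam1 Ω ≤ 4 * Cn (d + 1) / ρ ^ 2 := by
    have := lam1_ball_le (by positivity : 0 < ρ / 2) hball
    refine this.trans (le_of_eq ?_)
    field_simp
    ring
  have hK : lam1 Ω - lamDeg Ω e ≤ Kn (d + 1) / L ^ 2 :=
    gap_arith A0_nonneg (Cn_nonneg _) hρ hD hL0 hpq hLD hθ hcyl (lamDeg_nonneg hen)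
      ((lamDeg_le_lam1 hen hΩ ⟨p, hp⟩).trans hlam) hcube
  have hpt := point_bound h hen hρ hLρ (Kn_nonneg _) hK
  filter_upwards [hpt] with x hx
  refine hx.trans ?_
  have hI : 0 ≤ ∫ x, u x ^ 2 := integral_nonneg fun x => by positivity
  refine mul_le_mul_of_nonneg_right ?_ hI
  have h1 : Real.exp (2 * lam1 Ω * ρ ^ 2) ≤ Real.exp (8 * Cn (d + 1)) := by
    rw [Real.exp_le_exp]
    rw [le_div_iff₀ (by positivity)] at hlam
    linarith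
  have h2 : ρ * (1 + 2 * Kn (d + 1)) / (c0 * L) =
      8 * (1 + 2 * Kn (d + 1)) / c0 * (ρ / D) ^ (1 / 3 : ℝ) := by
    have e1 : ρ = ρ ^ (2 / 3 : ℝ) * ρ ^ (1 / 3 : ℝ) := by
      rw [← Real.rpow_add hρ]; norm_num
    have e2 : ρ / L = 8 * (ρ / D) ^ (1 / 3 : ℝ) := by
      rw [Real.div_rpow hρ.le hD.le, hL]
      have a1 : 0 < ρ ^ (2 / 3 : ℝ) := by positivity
      have a2 : 0 < D ^ (1 / 3 : ℝ) := by positivity
      have a3 : 0 < ρ ^ (1 / 3 : ℝ) := by positivity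
      calc ρ / (ρ ^ (2 / 3 : ℝ) * D ^ (1 / 3 : ℝ) / 8)
          = (ρ ^ (2 / 3 : ℝ) * ρ ^ (1 / 3 : ℝ)) / (ρ ^ (2 / 3 : ℝ) * D ^ (1 / 3 : ℝ) / 8) := by
            rw [← e1]
        _ = 8 * (ρ ^ (1 / 3 : ℝ) / D ^ (1 / 3 : ℝ)) := by
            field_simp
    have hc := c0_pos
    have e3 : ρ * (1 + 2 * Kn (d + 1)) / (c0 * L) = (1 + 2 * Kn (d + 1)) / c0 * (ρ / L) := by
      field_simp
    rw [e3, e2]
    ring
  have hK0 := Kn_nonneg (d + 1)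
  have hc := c0_pos
  have hom := om_pos (d + 1)
  calc _ ≤ Real.exp (1 / 4) / om (d + 1) * Real.exp (8 * Cn (d + 1)) * (ρ ^ (d + 1))⁻¹ *
        (ρ * (1 + 2 * Kn (d + 1)) / (c0 * L)) := by gcongr
    _ = _ := by rw [h2]; unfold Mn; ring

end Pool.Agent.Y288.SN
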