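import Pool.Agent.Y288.SN.SlabBound

set_option autoImplicit false

open MeasureTheory Set Metric Filter Topology

namespace Pool.Agent.Y288.SN

/-- the map (s, y) ↦ s e₀ + y -/
noncomputable def cn (d : ℕ) : (ℝ × E d) ≃ᵐ E (d + 1) :=
  ((MeasurableEquiv.refl ℝ).prodCongr (MeasurableEquiv.toLp 2 (Fin d → ℝ)).symm).trans
    ((MeasurableEquiv.piFinSuccAbove (fun _ : Fin (d + 1) => ℝ) 0).symm.trans
      (MeasurableEquiv.toLp 2 (Fin (d + 1) → ℝ)))

theorem cn_zero {d : ℕ} (q : ℝ × E d) : cn d q 0 = q.1 := rfl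

theorem cn_succ {d : ℕ} (q : ℝ × E d) (i : Fin d) : cn d q i.succ = q.2 i := by
  show Fin.insertNth (α := fun _ => ℝ) 0 q.1 (WithLp.ofLp q.2) i.succ = q.2 i
  rw [Fin.insertNth_zero']
  rfl

theorem cn_mp (d : ℕ) : MeasurePreserving (cn d) volume volume := by
  have h1 : MeasurePreserving (MeasurableEquiv.piFinSuccAbove (fun _ : Fin (d + 1) => ℝ) 0).symm
      volume volume := (volume_preserving_piFinSuccAbove (fun _ : Fin (d + 1) => ℝ) 0).symm _
  have h2 : MeasurePreserving (MeasurableEquiv.toLp 2 (Fin (d + 1) → ℝ)) volume volume :=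
    (EuclideanSpace.volume_preserving_symm_measurableEquiv_toLp (Fin (d + 1))).symm _
  have h3 : MeasurePreserving (Prod.map (id : ℝ → ℝ) (MeasurableEquiv.toLp 2 (Fin d → ℝ)).symm)
      (volume.prod volume) (volume.prod volume) :=
    (MeasurePreserving.id volume).prod
      (EuclideanSpace.volume_preserving_symm_measurableEquiv_toLp (Fin d))
  exact h2.comp (h1.comp h3)

noncomputable def cnL (d : ℕ) : (ℝ × E d) →L[ℝ] E (d + 1) :=
  LinearMap.toContinuousLinearMap
    { toFun := cn d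
      map_add' := by
        intro a b
        ext i
        refine Fin.cases ?_ (fun j => ?_) i
        · simp [cn_zero]
        · simp [cn_succ]
      map_smul' := by
        intro c b
        ext i
        refine Fin.cases ?_ (fun j => ?_) i
        · simp [cn_zero]
        · simp [cn_succ] }

theorem cnL_apply {d : ℕ} (q : ℝ × E d) : cnL d q = cn d q := rfl

/-- first coordinate -/
noncomputable def hdL (d : ℕ) : E (d + 1) →L[ℝ] ℝ :=
  LinearMap.toContinuousLinearMap
    { toFun := fun x => x 0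
      map_add' := fun _ _ => rfl
      map_smul' := fun _ _ => rfl }

/-- the other coordinates -/
noncomputable def tlL (d : ℕ) : E (d + 1) →L[ℝ] E d :=
  LinearMap.toContinuousLinearMap
    { toFun := fun x => WithLp.toLp 2 (fun i => x i.succ)
      map_add' := fun _ _ => rfl
      map_smul' := fun _ _ => rfl }

theorem hdL_cn {d : ℕ} (q : ℝ × E d) : hdL d (cn d q) = q.1 := rfl

theorem tlL_cn {d : ℕ} (q : ℝ × E d) : tlL d (cn d q) = q.2 := by
  ext i
  exact cn_succ q i

theorem cn_hd_tl {d : ℕ} (x : E (d + 1)) : cn d (hdL d x, tlL d x) = x := by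
  obtain ⟨q, rfl⟩ := (cn d).surjective x
  rw [hdL_cn, tlL_cn]

theorem cn_ee_zero {d : ℕ} : cn d (1, 0) = ee 0 := by
  ext i
  refine Fin.cases ?_ (fun j => ?_) i
  · rw [cn_zero]; simp [ee]
  · rw [cn_succ]; simp [ee]

theorem cn_ee_succ {d : ℕ} (i : Fin d) : cn d (0, ee i) = ee i.succ := by
  ext j
  refine Fin.cases ?_ (fun j => ?_) j
  · rw [cn_zero]; simp [ee, Fin.succ_ne_zero]
  · rw [cn_succ]; simp [ee]

theorem norm_sq_sum {n : ℕ} (a : E n) : ‖a‖ ^ 2 = ∑ i, inner ℝ a (ee i) ^ 2 := by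
  rw [← real_inner_self_eq_norm_sq, inner_eq_sum]
  exact Finset.sum_congr rfl fun i _ => by ring

variable {d : ℕ} {Ω : Set (E (d + 1))} {φ : E (d + 1) → ℝ}

theorem hasFDerivAt_slice (h : Differentiable ℝ φ) (s : ℝ) (y : E d) :
    HasFDerivAt (fun y => φ (cn d (s, y)))
      ((fderiv ℝ φ (cn d (s, y))).comp ((cnL d).comp (ContinuousLinearMap.inr ℝ ℝ (E d)))) y := by
  have h1 : HasFDerivAt (fun y : E d => cn d (s, y))
      ((cnL d).comp (ContinuousLinearMap.inr ℝ ℝ (E d))) y := by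
    have := (cnL d).hasFDerivAt.comp y (hasFDerivAt_prodMk_right (𝕜 := ℝ) s y)
    exact this
  exact (h (cn d (s, y))).hasFDerivAt.comp y h1

theorem fderiv_slice (h : Differentiable ℝ φ) (s : ℝ) (y v : E d) :
    fderiv ℝ (fun y => φ (cn d (s, y))) y v = fderiv ℝ φ (cn d (s, y)) (cn d (0, v)) := by
  rw [(hasFDerivAt_slice h s y).fderiv]
  rfl

theorem grad_slice (h : Differentiable ℝ φ) (s : ℝ) (y : E d) :
    ‖gradient (fun y => φ (cn d (s, y))) y‖ ^ 2 =
      ‖gradient φ (cn d (s, y))‖ ^ 2 - inner ℝ (gradient φ (cn d (s, y))) (ee 0) ^ 2 := by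
  rw [norm_sq_sum, norm_sq_sum, Fin.sum_univ_succ]
  simp_rw [inner_grad, fderiv_slice h, cn_ee_succ]
  ring

theorem hasDerivAt_slice (h : Differentiable ℝ φ) (s : ℝ) (y : E d) :
    HasDerivAt (fun s => φ (cn d (s, y))) (inner ℝ (gradient φ (cn d (s, y))) (ee 0)) s := by
  have h1 : HasFDerivAt (fun s : ℝ => cn d (s, y))
      ((cnL d).comp (ContinuousLinearMap.inl ℝ ℝ (E d))) s := by
    have := (cnL d).hasFDerivAt.comp s (hasFDerivAt_prodMk_left (𝕜 := ℝ) s y)
    exact this
  have h2 := (h (cn d (s, y))).hasFDerivAt.comp s h1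
  have h3 := h2.hasDerivAt
  rw [inner_grad, ← cn_ee_zero]
  exact h3

theorem slice_test (h : IsTest Ω φ) (s : ℝ) :
    IsTest {y | cn d (s, y) ∈ Ω} (fun y => φ (cn d (s, y))) := by
  have hc : Continuous (fun y : E d => cn d (s, y)) := by
    have : Continuous (fun y : E d => cnL d (s, y)) := (cnL d).continuous.comp (by fun_prop)
    exact this
  have hsub : tsupport (fun y => φ (cn d (s, y))) ⊆ (fun y => cn d (s, y)) ⁻¹' tsupport φ :=
    tsupport_comp_subset_preimage φ hc
  refine ⟨?_, ?_, ?_⟩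
  · have : ContDiff ℝ (⊤ : ℕ∞) (fun y : E d => φ (cnL d (s, y))) :=
      h.1.comp ((cnL d).contDiff.comp (contDiff_const.prodMk contDiff_id))
    exact this
  · refine IsCompact.of_isClosed_subset (h.2.1.isCompact.image (tlL d).continuous)
      (isClosed_tsupport _) fun y hy => ?_
    exact ⟨_, hsub hy, tlL_cn _⟩
  · exact hsub.trans fun y hy => h.2.2 hy

theorem integral_cn (f : E (d + 1) → ℝ) : ∫ x, f x = ∫ q : ℝ × E d, f (cn d q) :=
  ((cn_mp d).integral_comp (cn d).measurableEmbedding f).symm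

theorem integrable_cn {f : E (d + 1) → ℝ} (hf : Integrable f) :
    Integrable (fun q : ℝ × E d => f (cn d q)) (volume.prod volume) :=
  ((cn_mp d).integrable_comp_emb (cn d).measurableEmbedding).2 hf

theorem integral_slices {f : E (d + 1) → ℝ} (hf : Integrable f) :
    ∫ x, f x = ∫ s : ℝ, ∫ y : E d, f (cn d (s, y)) := by
  rw [integral_cn, Measure.volume_eq_prod, integral_prod _ (integrable_cn hf)]

theorem exists_slice (h : IsTest Ω φ) {Λ : ℝ} (hΛ : degE (ee 0) φ < Λ * ∫ x, φ x ^ 2) :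
    ∃ s : ℝ, ∫ y, ‖gradient (fun y => φ (cn d (s, y))) y‖ ^ 2 < Λ * ∫ y, φ (cn d (s, y)) ^ 2 := by
  by_contra hcon
  push_neg at hcon
  unfold degE at hΛ
  rw [integral_slices (h.int_deg (ee 0)), integral_slices h.int_sq] at hΛ
  simp_rw [← grad_slice h.diff] at hΛ
  refine absurd hΛ (not_lt.2 ?_)
  rw [← integral_const_mul]
  refine integral_mono ?_ ?_ hcon
  · exact (integrable_cn h.int_sq).integral_prod_left.const_mul _
  · have := (integrable_cn (h.int_deg (ee 0))).integral_prod_left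
    refine this.congr (Eventually.of_forall fun s => ?_)
    simp_rw [grad_slice h.diff]

end Pool.Agent.Y288.SN
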