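import Pool.Agent.Y288.SN.Coord

set_option autoImplicit false

open MeasureTheory Set Metric Filter Topology

namespace Pool.Agent.Y288.SN

variable {d : ℕ} {Ω : Set (E (d + 1))}

/-- product test function -/
theorem prod_test {ω : Set (E d)} {Φ : E d → ℝ} (hΦ : IsTest ω Φ) {g : ℝ → ℝ}
    (hg : ContDiff ℝ (⊤ : ℕ∞) g) (hgc : HasCompactSupport g)
    (hsub : ∀ s ∈ tsupport g, ∀ y ∈ tsupport Φ, cn d (s, y) ∈ Ω) :
    IsTest Ω (fun x => g (hdL d x) * Φ (tlL d x)) := by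
  have hs : tsupport (fun x => g (hdL d x) * Φ (tlL d x)) ⊆
      cn d '' (tsupport g ×ˢ tsupport Φ) := by
    have h1 : tsupport (fun x => g (hdL d x) * Φ (tlL d x)) ⊆
        (hdL d ⁻¹' tsupport g) ∩ (tlL d ⁻¹' tsupport Φ) := by
      refine closure_minimal ?_ ((isClosed_tsupport _).preimage (hdL d).continuous |>.inter
        ((isClosed_tsupport _).preimage (tlL d).continuous))
      intro x hx
      simp only [Function.mem_support] at hx
      exact ⟨subset_tsupport _ (left_ne_zero_of_mul hx), subset_tsupport _ (right_ne_zero_of_mul hx)⟩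
    intro x hx
    exact ⟨(hdL d x, tlL d x), ⟨(h1 hx).1, (h1 hx).2⟩, cn_hd_tl x⟩
  refine ⟨?_, ?_, ?_⟩
  · exact (hg.comp (hdL d).contDiff).mul (hΦ.1.comp (tlL d).contDiff)
  · refine IsCompact.of_isClosed_subset ((hgc.isCompact.prod hΦ.2.1.isCompact).image
      (cnL d).continuous) (isClosed_tsupport _) hs
  · refine hs.trans ?_
    rintro x ⟨⟨s, y⟩, ⟨h1, h2⟩, rfl⟩
    exact hsub s h1 y h2

theorem prod_sq {ω : Set (E d)} {Φ : E d → ℝ} (_hΦ : IsTest ω Φ) {g : ℝ → ℝ} :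
    ∫ x, (g (hdL d x) * Φ (tlL d x)) ^ 2 = (∫ s, g s ^ 2) * ∫ y, Φ y ^ 2 := by
  rw [integral_cn, Measure.volume_eq_prod, ← integral_prod_mul]
  congr 1
  ext q
  rw [hdL_cn, tlL_cn]
  ring

theorem prod_grad {ω : Set (E d)} {Φ : E d → ℝ} (hΦ : IsTest ω Φ) {g : ℝ → ℝ}
    (hg : ContDiff ℝ (⊤ : ℕ∞) g) (hgc : HasCompactSupport g) :
    ∫ x, ‖gradient (fun x => g (hdL d x) * Φ (tlL d x)) x‖ ^ 2 =
      (∫ s, deriv g s ^ 2) * (∫ y, Φ y ^ 2) + (∫ s, g s ^ 2) * ∫ y, ‖gradient Φ y‖ ^ 2 := by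
  have hψ : Differentiable ℝ (fun x => g (hdL d x) * Φ (tlL d x)) :=
    ((hg.comp (hdL d).contDiff).mul (hΦ.1.comp (tlL d).contDiff)).differentiable (by simp)
  have hgd : Differentiable ℝ g := hg.differentiable (by simp)
  have h1 : ∀ q : ℝ × E d, ‖gradient (fun x => g (hdL d x) * Φ (tlL d x)) (cn d q)‖ ^ 2 =
      deriv g q.1 ^ 2 * Φ q.2 ^ 2 + g q.1 ^ 2 * ‖gradient Φ q.2‖ ^ 2 := by
    rintro ⟨s, y⟩
    have e1 := grad_slice hψ s y
    have e2 := (hasDerivAt_slice hψ s y).deriv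
    simp only [hdL_cn, tlL_cn] at e1 e2 ⊢
    have e3 : (fun y => g s * Φ y) = fun y => g s * Φ y := rfl
    rw [gradient_smul' hΦ.diff, norm_smul, mul_pow, Real.norm_eq_abs, sq_abs] at e1
    have e4 : deriv (fun s => g s * Φ y) s = deriv g s * Φ y := by
      rw [deriv_mul_const (hgd s)]
    rw [e4] at e2
    rw [← e2, mul_pow] at e1
    linarith
  rw [integral_cn]
  simp_rw [h1]
  have i1 : Integrable (fun q : ℝ × E d => deriv g q.1 ^ 2 * Φ q.2 ^ 2) (volume.prod volume) := by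
    refine Integrable.mul_prod (f := fun s => deriv g s ^ 2) (g := fun y => Φ y ^ 2) ?_ hΦ.int_sq
    refine Continuous.integrable_of_hasCompactSupport
      ((hg.continuous_deriv (by simp)).pow 2) ?_
    exact hgc.deriv.comp_left (g := fun t : ℝ => t ^ 2) (by simp)
  have i2 : Integrable (fun q : ℝ × E d => g q.1 ^ 2 * ‖gradient Φ q.2‖ ^ 2)
      (volume.prod volume) := by
    refine Integrable.mul_prod (f := fun s => g s ^ 2) (g := fun y => ‖gradient Φ y‖ ^ 2) ?_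
      hΦ.int_gradsq
    refine Continuous.integrable_of_hasCompactSupport (hg.continuous.pow 2) ?_
    exact hgc.comp_left (g := fun t : ℝ => t ^ 2) (by simp)
  rw [Measure.volume_eq_prod, integral_add i1 i2, integral_prod_mul (fun s => deriv g s ^ 2)
    (fun y => Φ y ^ 2), integral_prod_mul (fun s => g s ^ 2) (fun y => ‖gradient Φ y‖ ^ 2)]

/-- scaled test function -/
theorem scale_test {ω : Set (E d)} {Φ : E d → ℝ} (hΦ : IsTest ω Φ) {κ : ℝ} (hκ : 0 < κ) (b : E d) :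
    IsTest {y | κ • y + b ∈ ω} (fun y => Φ (κ • y + b)) ∧
    (∫ y, Φ (κ • y + b) ^ 2) = (κ ^ d)⁻¹ * ∫ y, Φ y ^ 2 ∧
    (∫ y, ‖gradient (fun y => Φ (κ • y + b)) y‖ ^ 2) =
      κ ^ 2 * ((κ ^ d)⁻¹ * ∫ y, ‖gradient Φ y‖ ^ 2) := by
  have hcont : Continuous (fun y : E d => κ • y + b) := by fun_prop
  have hsub : tsupport (fun y => Φ (κ • y + b)) ⊆ (fun y : E d => κ • y + b) ⁻¹' tsupport Φ :=
    tsupport_comp_subset_preimage Φ hcont
  have hint : ∀ f : E d → ℝ, ∫ y, f (κ • y + b) = (κ ^ d)⁻¹ * ∫ y, f y := by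
    intro f
    have h1 := Measure.integral_comp_smul (volume : Measure (E d)) (fun y => f (y + b)) κ
    rw [h1, integral_add_right_eq_self, smul_eq_mul, abs_of_pos (by positivity)]
    simp
  have hgrad : ∀ y, gradient (fun y => Φ (κ • y + b)) y = κ • gradient Φ (κ • y + b) := by
    intro y
    have h1 : HasFDerivAt (fun y : E d => κ • y + b) (κ • ContinuousLinearMap.id ℝ (E d)) y :=
      ((hasFDerivAt_id y).const_smul κ).add_const b
    have h2 := (hΦ.diff (κ • y + b)).hasFDerivAt.comp y h1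
    unfold gradient
    have h3 : fderiv ℝ (fun y => Φ (κ • y + b)) y = κ • fderiv ℝ Φ (κ • y + b) := by
      have h4 : fderiv ℝ (fun y => Φ (κ • y + b)) y = _ := h2.fderiv
      rw [h4]
      ext v
      simp
    rw [h3, map_smulₛₗ]
    simp
  refine ⟨⟨?_, ?_, ?_⟩, hint fun y => Φ y ^ 2, ?_⟩
  · exact hΦ.1.comp ((contDiff_const_smul κ).add contDiff_const)
  · refine IsCompact.of_isClosed_subset (hΦ.2.1.isCompact.image
      (f := fun y : E d => κ⁻¹ • (y - b)) (by fun_prop)) (isClosed_tsupport _) fun y hy => ?_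
    refine ⟨κ • y + b, hsub hy, ?_⟩
    simp [smul_smul, inv_mul_cancel₀ hκ.ne']
  · exact hsub.trans fun y hy => hΦ.2.2 hy
  · have : ∀ y, ‖gradient (fun y => Φ (κ • y + b)) y‖ ^ 2 =
        κ ^ 2 * ‖gradient Φ (κ • y + b)‖ ^ 2 := by
      intro y
      rw [hgrad, norm_smul, mul_pow, Real.norm_eq_abs, sq_abs]
    simp_rw [this]
    rw [integral_const_mul, hint fun y => ‖gradient Φ y‖ ^ 2]

/-- a fixed bump on the line -/
noncomputable def gb : ContDiffBump (0 : ℝ) := ⟨1 / 4, 1 / 2, by norm_num, by norm_num⟩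

noncomputable def A0 : ℝ := (∫ s, deriv gb s ^ 2) / ∫ s, gb s ^ 2

theorem gb_sq_pos : 0 < ∫ s, gb s ^ 2 := by
  refine Continuous.integral_pos_of_hasCompactSupport_nonneg_nonzero (x := 0)
    (gb.continuous.pow 2) ?_ (fun x => by positivity) ?_
  · exact gb.hasCompactSupport.comp_left (g := fun t : ℝ => t ^ 2) (by simp)
  · have h1 : gb (0 : ℝ) = 1 := gb.one_of_mem_closedBall (by simp [gb])
    simp only [h1]; norm_num

theorem A0_nonneg : 0 ≤ A0 :=
  div_nonneg (integral_nonneg fun x => by positivity) gb_sq_pos.le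

/-- the bump of length `2 L` centred at `c` -/
noncomputable def gL (c L s : ℝ) : ℝ := gb (L⁻¹ * s + -(L⁻¹ * c))

theorem gL_props {c L : ℝ} (hL : 0 < L) :
    ContDiff ℝ (⊤ : ℕ∞) (gL c L) ∧ HasCompactSupport (gL c L) ∧
    tsupport (gL c L) ⊆ Ioo (c - L) (c + L) ∧ 0 < (∫ s, gL c L s ^ 2) ∧
    (∫ s, deriv (gL c L) s ^ 2) = A0 / L ^ 2 * ∫ s, gL c L s ^ 2 := by
  have hcont : Continuous (fun s : ℝ => L⁻¹ * s + -(L⁻¹ * c)) := by fun_prop
  have hsub : tsupport (gL c L) ⊆ (fun s : ℝ => L⁻¹ * s + -(L⁻¹ * c)) ⁻¹' tsupport gb :=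
    tsupport_comp_subset_preimage gb hcont
  have hsub2 : tsupport (gL c L) ⊆ Icc (c - L / 2) (c + L / 2) := by
    intro s hs
    have h1 := hsub hs
    rw [mem_preimage, gb.tsupport_eq, mem_closedBall, dist_zero_right, Real.norm_eq_abs] at h1
    have h2 : |L⁻¹ * (s - c)| ≤ 1 / 2 := by
      have e : L⁻¹ * (s - c) = L⁻¹ * s + -(L⁻¹ * c) := by ring
      rw [e]; exact h1
    rw [abs_mul, abs_of_pos (by positivity), inv_mul_le_iff₀ hL, abs_le] at h2
    constructor <;> linarith [h2.1, h2.2]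
  have hint : ∀ f : ℝ → ℝ, ∫ s, f (L⁻¹ * s + -(L⁻¹ * c)) = L * ∫ s, f s := by
    intro f
    have h1 := Measure.integral_comp_mul_left (fun y => f (y + -(L⁻¹ * c))) L⁻¹
    rw [h1, integral_add_right_eq_self, smul_eq_mul, inv_inv, abs_of_pos hL]
  have hsq : ∫ s, gL c L s ^ 2 = L * ∫ s, gb s ^ 2 := hint fun s => gb s ^ 2
  have hder : ∀ s, deriv (gL c L) s = L⁻¹ * deriv gb (L⁻¹ * s + -(L⁻¹ * c)) := by
    intro s
    have h1 : HasDerivAt (fun s : ℝ => L⁻¹ * s + -(L⁻¹ * c)) L⁻¹ s := by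
      have := ((hasDerivAt_id s).const_mul L⁻¹).add_const (-(L⁻¹ * c))
      simpa using this
    have h2 : HasDerivAt gb (deriv gb (L⁻¹ * s + -(L⁻¹ * c))) (L⁻¹ * s + -(L⁻¹ * c)) :=
      ((gb.contDiff (n := 1)).differentiable (by simp) _).hasDerivAt
    have h3 := h2.comp s h1
    rw [mul_comm]
    exact h3.deriv
  refine ⟨?_, ?_, ?_, ?_, ?_⟩
  · exact gb.contDiff.comp ((contDiff_const.mul contDiff_id).add contDiff_const)
  · exact IsCompact.of_isClosed_subset isCompact_Icc (isClosed_tsupport _) hsub2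
  · exact hsub2.trans fun s hs => ⟨by linarith [hs.1], by linarith [hs.2]⟩
  · rw [hsq]; have := gb_sq_pos; positivity
  · simp_rw [hder, mul_pow]
    rw [integral_const_mul, hint fun s => deriv gb s ^ 2, hsq, A0]
    have := gb_sq_pos
    field_simp

theorem IsTest.exists_of_open {n : ℕ} {Ω : Set (E n)} (hΩ : IsOpen Ω) (hne : Ω.Nonempty) :
    ∃ φ, IsTest Ω φ ∧ φ ≠ 0 := by
  obtain ⟨x0, hx0⟩ := hne
  obtain ⟨r, hr, hball⟩ := Metric.isOpen_iff.1 hΩ x0 hx0
  let ρ : ContDiffBump x0 := ⟨r / 4, r / 2, by positivity, by linarith⟩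
  refine ⟨ρ, ⟨ρ.contDiff, ρ.hasCompactSupport, ?_⟩, ?_⟩
  · rw [ρ.tsupport_eq]
    refine (closedBall_subset_ball ?_).trans hball
    show r / 2 < r
    linarith
  · intro h
    have := congrFun h x0
    have h1 : ρ x0 = 1 := ρ.one_of_mem_closedBall (by simp [ρ]; positivity)
    rw [h1] at this
    simp at this

/-- the main geometric estimate: a cylinder inside a convex set containing a long segment -/
theorem cyl (hΩ : IsOpen Ω) (hconv : Convex ℝ Ω) {p : E (d + 1)} {D θ : ℝ} (hD : 0 < D)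
    (hp : p ∈ Ω) (hq : p + D • ee 0 ∈ Ω) (hθ : 0 < θ) (hθ1 : θ < 1) :
    lam1 Ω ≤ A0 / (θ * D / 2) ^ 2 + lamDeg Ω (ee 0) / (1 - θ) ^ 2 := by
  have h1θ : 0 < 1 - θ := by linarith
  have he : ‖(ee 0 : E (d + 1))‖ = 1 := by unfold ee; simp
  -- it is enough to prove the bound for every `Λ > lamDeg`
  have key : ∀ Λ : ℝ, lamDeg Ω (ee 0) < Λ →
      lam1 Ω ≤ A0 / (θ * D / 2) ^ 2 + Λ / (1 - θ) ^ 2 := by
    intro Λ hΛ
    obtain ⟨φ0, hφ0, hne0⟩ := IsTest.exists_of_open hΩ ⟨p, hp⟩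
    obtain ⟨_, ⟨φ, hφ, hφne, rfl⟩, hlt⟩ := exists_lt_of_csInf_lt
      (s := {r : ℝ | ∃ φ, IsTest Ω φ ∧ φ ≠ 0 ∧ r = degE (ee 0) φ / ∫ x, φ x ^ 2})
      ⟨_, φ0, hφ0, hne0, rfl⟩ hΛ
    rw [div_lt_iff₀ (hφ.pos_of_ne hφne)] at hlt
    obtain ⟨s0, hs0⟩ := exists_slice hφ hlt
    set Φ : E d → ℝ := fun y => φ (cn d (s0, y)) with hΦdef
    have hΦ : IsTest {y | cn d (s0, y) ∈ Ω} Φ := slice_test hφ s0
    set y0 : E d := tlL d p with hy0
    set κ : ℝ := (1 - θ)⁻¹ with hκ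
    have hκ0 : 0 < κ := by positivity
    set b : E d := (-(θ * κ)) • y0 with hb
    obtain ⟨t1, t2, t3⟩ := scale_test hΦ hκ0 b
    set a : ℝ := (1 - θ) * s0 + θ * hdL d p with ha
    set L : ℝ := θ * D / 2 with hLdef
    have hL : 0 < L := by positivity
    obtain ⟨g1, g2, g3, g4, g5⟩ := gL_props (c := a + L) hL
    have hp' : ∀ τ ∈ Icc (0 : ℝ) 1, cn d (hdL d p + τ * D, y0) ∈ Ω := by
      intro τ hτ
      have h1 := hconv hp hq (sub_nonneg.2 hτ.2) hτ.1 (by ring)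
      have h2 : cn d (hdL d p + τ * D, y0) = (1 - τ) • p + τ • (p + D • ee 0) := by
        have e1 : (hdL d p + τ * D, y0) = (hdL d p, tlL d p) + (τ * D) • ((1 : ℝ), (0 : E d)) := by
          simp [hy0]
        rw [e1, ← cnL_apply, map_add, map_smul, cnL_apply, cnL_apply, cn_hd_tl, cn_ee_zero]
        module
      rw [h2]; exact h1
    have htest := prod_test (Ω := Ω) t1 g1 g2 (by
      intro s hs y hy
      have hs' := g3 hs
      have hy' : κ • y + b ∈ {y | cn d (s0, y) ∈ Ω} := t1.2.2 hy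
      simp only [mem_setOf_eq] at hy'
      -- `s = (1-θ) s0 + θ (hdL p + τ D)`
      set τ : ℝ := (s - a) / (θ * D) with hτ
      have hτ1 : τ ∈ Icc (0 : ℝ) 1 := by
        rw [hτ]
        have e2 : a + L - L = a := by ring
        have e3 : a + L + L = a + θ * D := by rw [hLdef]; ring
        rw [e2, e3] at hs'
        constructor
        · exact div_nonneg (by linarith [hs'.1]) (by positivity)
        · rw [div_le_one (by positivity)]; linarith [hs'.2]
      have h3 := hconv hy' (hp' τ hτ1) h1θ.le hθ.le (by ring)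
      have h4 : cn d (s, y) = (1 - θ) • cn d (s0, κ • y + b) + θ • cn d (hdL d p + τ * D, y0) := by
        simp only [← cnL_apply, ← map_smul, ← map_add]
        congr 1
        rw [Prod.smul_mk, Prod.smul_mk, Prod.mk_add_mk]
        congr 1
        · simp only [smul_eq_mul]
          rw [hτ, ha]
          field_simp
          ring
        · rw [hb, hκ]
          rw [smul_add, smul_smul, smul_smul, mul_inv_cancel₀ h1θ.ne', one_smul]
          have : (1 - θ) * -(θ * (1 - θ)⁻¹) = -θ := by field_simp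
          rw [this]
          module
      rw [h4]; exact h3)
    have hpos : 0 < ∫ y, Φ y ^ 2 := by
      by_contra hc
      have h0 : ∫ y, Φ y ^ 2 = 0 := le_antisymm (not_lt.1 hc) (integral_nonneg fun y => by positivity)
      rw [h0, mul_zero] at hs0
      exact absurd (integral_nonneg fun y => by positivity) (not_le.2 hs0)
    have h5 := lam_le htest
    rw [prod_sq t1, prod_grad t1 g1 g2, t2, t3, g5] at h5
    set G := ∫ s, gL (a + L) L s ^ 2
    set F := ∫ y, Φ y ^ 2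
    set F' := ∫ y, ‖gradient Φ y‖ ^ 2
    have hκd : 0 < (κ ^ d)⁻¹ := by positivity
    have h6 : κ ^ 2 * ((κ ^ d)⁻¹ * F') ≤ κ ^ 2 * ((κ ^ d)⁻¹ * (Λ * F)) := by
      have := hs0.le
      gcongr
    have h7 : lam1 Ω * (G * ((κ ^ d)⁻¹ * F)) ≤
        (A0 / L ^ 2 + κ ^ 2 * Λ) * (G * ((κ ^ d)⁻¹ * F)) := by
      calc _ ≤ _ := h5
        _ ≤ A0 / L ^ 2 * G * ((κ ^ d)⁻¹ * F) + G * (κ ^ 2 * ((κ ^ d)⁻¹ * (Λ * F))) := by
            gcongr
        _ = _ := by ring
    have h8 := le_of_mul_le_mul_right h7 (by positivity)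
    have e9 : κ ^ 2 * Λ = Λ / (1 - θ) ^ 2 := by rw [hκ]; field_simp
    rw [e9] at h8
    exact h8
  refine le_of_forall_pos_le_add fun ε hε => ?_
  have h1 := key (lamDeg Ω (ee 0) + ε * (1 - θ) ^ 2) (by
    have : 0 < ε * (1 - θ) ^ 2 := by positivity
    linarith)
  rw [add_div, mul_div_cancel_right₀ ε (by positivity : (1 - θ) ^ 2 ≠ 0)] at h1
  linarith

end Pool.Agent.Y288.SN
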