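import Pool.Agent.Y288.SN.Combine

set_option autoImplicit false

open MeasureTheory Set Metric Filter Topology

namespace Pool.Agent.Y288.SN

variable {n : ℕ} {Ω : Set (E n)} {u : E n → ℝ} {G : E n → E n}

/-- `u` (only its values on `Ω` matter) lies in `H¹₀(Ω)` and its weak gradient is `G`: both are
square integrable on `Ω`, and some sequence of test functions of `Ω` converges to `u` in `L²(Ω)`
while its gradients converge to `G` in `L²(Ω)`. -/
def IsH10 (Ω : Set (E n)) (u : E n → ℝ) (G : E n → E n) : Prop :=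
  MemLp u 2 (volume.restrict Ω) ∧ MemLp G 2 (volume.restrict Ω) ∧
    ∃ φ : ℕ → E n → ℝ, (∀ k, IsTest Ω (φ k)) ∧
      Tendsto (fun k => ∫ x in Ω, (φ k x - u x) ^ 2) atTop (𝓝 0) ∧
      Tendsto (fun k => ∫ x in Ω, ‖gradient (φ k) x - G x‖ ^ 2) atTop (𝓝 0)

/-- `u` is a first eigenfunction of the Dirichlet Laplacian on `Ω` -/
def IsFirstEigenfunction (Ω : Set (E n)) (u : E n → ℝ) : Prop :=
  ¬ (u =ᵐ[volume.restrict Ω] 0) ∧ ∃ G : E n → E n, IsH10 Ω u G ∧
    ∀ ψ, IsTest Ω ψ → ∫ x in Ω, inner ℝ (G x) (gradient ψ x) = lam1 Ω * ∫ x in Ω, u x * ψ x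

/-- the inradius: supremum of the radii of the open balls contained in `Ω` -/
noncomputable def inrad (Ω : Set (E n)) : ℝ := sSup {r : ℝ | ∃ x, ball x r ⊆ Ω}

theorem IsTest.zero_out {φ : E n → ℝ} (h : IsTest Ω φ) {x : E n} (hx : x ∉ Ω) : φ x = 0 :=
  image_eq_zero_of_notMem_tsupport fun hx' => hx (h.2.2 hx')

theorem IsTest.grad_zero_out {φ : E n → ℝ} (h : IsTest Ω φ) {x : E n} (hx : x ∉ Ω) :
    gradient φ x = 0 := by
  have h1 : x ∉ tsupport (gradient φ) := by
    intro h2
    have h3 : tsupport (gradient φ) ⊆ tsupport φ := by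
      refine closure_minimal ?_ (isClosed_tsupport _)
      intro y hy
      have : y ∈ Function.support (fderiv ℝ φ) := by
        simp only [Function.mem_support] at hy ⊢
        intro h0
        apply hy
        unfold gradient
        rw [h0, map_zero]
      exact support_fderiv_subset ℝ this
    exact hx (h.2.2 (h3 h2))
  exact image_eq_zero_of_notMem_tsupport h1

/-- Cauchy-Schwarz for scalar functions, general measure -/
theorem cs_gen {μ : Measure (E n)} {f g : E n → ℝ} (hf : MemLp f 2 μ) (hg : MemLp g 2 μ) :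
    (∫ x, |f x| * |g x| ∂μ) ^ 2 ≤ (∫ x, f x ^ 2 ∂μ) * ∫ x, g x ^ 2 ∂μ := by
  have key : ∀ t : ℝ, 0 ≤ (∫ x, g x ^ 2 ∂μ) * (t * t) + 2 * (∫ x, |f x| * |g x| ∂μ) * t +
      ∫ x, f x ^ 2 ∂μ := by
    intro t
    have i1 := (hg.integrable_sq).const_mul (t * t)
    have i2 : Integrable (fun x => |f x| * |g x|) μ := by
      have := hf.integrable_mul hg
      exact this.abs.congr (Eventually.of_forall fun x => by simp [abs_mul])
    have i3 := i2.const_mul (2 * t)
    have i4 := hf.integrable_sq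
    have e : (∫ x, g x ^ 2 ∂μ) * (t * t) + 2 * (∫ x, |f x| * |g x| ∂μ) * t + ∫ x, f x ^ 2 ∂μ =
        ∫ x, (|f x| + t * |g x|) ^ 2 ∂μ := by
      have e1 : ∀ x, (|f x| + t * |g x|) ^ 2 = f x ^ 2 + (2 * t * (|f x| * |g x|) +
          t * t * g x ^ 2) := by
        intro x
        rw [add_sq, mul_pow, sq_abs, sq_abs]; ring
      simp_rw [e1]
      have i5 : Integrable (fun x => 2 * t * (|f x| * |g x|) + t * t * g x ^ 2) μ := i3.add i1
      rw [integral_add i4 i5, integral_add i3 i1, integral_const_mul, integral_const_mul]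
      ring
    rw [e]
    exact integral_nonneg fun x => by positivity
  have := discrim_le_zero key
  unfold discrim at this
  nlinarith

/-- convergence of the pairing with a fixed `L²` vector field -/
theorem tendsto_pair {μ : Measure (E n)} {F : E n → E n} {H : ℕ → E n → E n} (hF : MemLp F 2 μ)
    (hH : ∀ k, MemLp (H k) 2 μ) (hl : Tendsto (fun k => ∫ x, ‖H k x‖ ^ 2 ∂μ) atTop (𝓝 0)) :
    Tendsto (fun k => ∫ x, inner ℝ (F x) (H k x) ∂μ) atTop (𝓝 0) := by
  have h2 : Tendsto (fun k => Real.sqrt ((∫ x, ‖F x‖ ^ 2 ∂μ) * ∫ x, ‖H k x‖ ^ 2 ∂μ)) atTop (𝓝 0) := by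
    have := (hl.const_mul (∫ x, ‖F x‖ ^ 2 ∂μ)).sqrt
    simpa using this
  rw [tendsto_zero_iff_norm_tendsto_zero]
  refine squeeze_zero (fun k => norm_nonneg _) (fun k => ?_) h2
  have i : Integrable (fun x => |‖F x‖| * |‖H k x‖|) μ := by
    have := hF.norm.integrable_mul (hH k).norm
    exact this.abs.congr (Eventually.of_forall fun x => by simp [abs_mul])
  have h3 := cs_gen hF.norm (hH k).norm
  refine le_trans ?_ (Real.le_sqrt_of_sq_le h3)
  refine norm_integral_le_of_norm_le i (Eventually.of_forall fun x => ?_)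
  rw [abs_norm, abs_norm]
  exact norm_inner_le_norm _ _

theorem tendsto_pair_real {μ : Measure (E n)} {F : E n → ℝ} {H : ℕ → E n → ℝ} (hF : MemLp F 2 μ)
    (hH : ∀ k, MemLp (H k) 2 μ) (hl : Tendsto (fun k => ∫ x, H k x ^ 2 ∂μ) atTop (𝓝 0)) :
    Tendsto (fun k => ∫ x, F x * H k x ∂μ) atTop (𝓝 0) := by
  have h2 : Tendsto (fun k => Real.sqrt ((∫ x, F x ^ 2 ∂μ) * ∫ x, H k x ^ 2 ∂μ)) atTop (𝓝 0) := by
    have := (hl.const_mul (∫ x, F x ^ 2 ∂μ)).sqrt
    simpa using this
  rw [tendsto_zero_iff_norm_tendsto_zero]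
  refine squeeze_zero (fun k => norm_nonneg _) (fun k => ?_) h2
  have i : Integrable (fun x => |F x| * |H k x|) μ := by
    have := hF.integrable_mul (hH k)
    exact this.abs.congr (Eventually.of_forall fun x => by simp [abs_mul])
  have h3 := cs_gen hF (hH k)
  refine le_trans ?_ (Real.le_sqrt_of_sq_le h3)
  refine norm_integral_le_of_norm_le i (Eventually.of_forall fun x => ?_)
  rw [norm_mul, Real.norm_eq_abs, Real.norm_eq_abs]

theorem IsTest.memLp_res {φ : E n → ℝ} (h : IsTest Ω φ) (S : Set (E n)) :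
    MemLp φ 2 (volume.restrict S) := h.memLp.restrict S

theorem IsTest.grad_memLp {φ : E n → ℝ} (h : IsTest Ω φ) (S : Set (E n)) :
    MemLp (gradient φ) 2 (volume.restrict S) :=
  (h.contGrad.memLp_of_hasCompactSupport h.grad_support).restrict S

/-- a first eigenfunction is the limit of a minimising sequence -/
theorem minSeq_of_eig (hΩ : IsOpen Ω) (h : IsFirstEigenfunction Ω u) :
    ∃ φs, MinSeq Ω (Ω.indicator u) φs := by
  obtain ⟨-, G, ⟨hu, hG, φ, hφ, hl1, hl2⟩, hweak⟩ := h
  have hm : MeasurableSet Ω := hΩ.measurableSet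
  have hu' : MemLp (Ω.indicator u) 2 volume := (memLp_indicator_iff_restrict hm).2 hu
  have esq : ∫ x, Ω.indicator u x ^ 2 = ∫ x in Ω, u x ^ 2 := by
    rw [← integral_indicator hm]
    congr 1; ext x
    by_cases hx : x ∈ Ω
    · simp [hx]
    · simp [hx]
  refine ⟨φ, hφ, hu', ?_, ?_⟩
  · refine hl1.congr fun k => ?_
    rw [← integral_indicator hm]
    congr 1; ext x
    by_cases hx : x ∈ Ω
    · simp [hx]
    · simp [hx, (hφ k).zero_out hx]
  · have e1 : ∀ k, ∫ x, ‖gradient (φ k) x‖ ^ 2 = ∫ x in Ω, ‖gradient (φ k) x‖ ^ 2 := by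
      intro k
      rw [← integral_indicator hm]
      congr 1; ext x
      by_cases hx : x ∈ Ω
      · simp [hx]
      · simp [hx, (hφ k).grad_zero_out hx]
    have hd : ∀ k, MemLp (fun x => gradient (φ k) x - G x) 2 (volume.restrict Ω) := fun k =>
      ((hφ k).grad_memLp Ω).sub hG
    have hd' : ∀ k, MemLp (fun x => φ k x - u x) 2 (volume.restrict Ω) := fun k =>
      ((hφ k).memLp_res Ω).sub hu
    -- pairing with `G`
    have p1 : Tendsto (fun k => ∫ x in Ω, inner ℝ (G x) (gradient (φ k) x - G x)) atTop (𝓝 0) :=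
      tendsto_pair hG hd hl2
    have p2 : Tendsto (fun k => ∫ x in Ω, u x * (φ k x - u x)) atTop (𝓝 0) :=
      tendsto_pair_real hu hd' hl1
    have iGG : Integrable (fun x => inner ℝ (G x) (G x)) (volume.restrict Ω) := by
      have := hG.norm.integrable_sq
      refine this.congr (Eventually.of_forall fun x => ?_)
      simp only [real_inner_self_eq_norm_sq]
    have iuu : Integrable (fun x => u x * u x) (volume.restrict Ω) := by
      have := hu.integrable_sq
      refine this.congr (Eventually.of_forall fun x => ?_)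
      simp only [sq]
    have iGd : ∀ k, Integrable (fun x => inner ℝ (G x) (gradient (φ k) x - G x))
        (volume.restrict Ω) := by
      intro k
      have h1 : Integrable (fun x => ‖G x‖ * ‖gradient (φ k) x - G x‖) (volume.restrict Ω) :=
        hG.norm.integrable_mul (hd k).norm
      refine h1.mono' (hG.1.inner (hd k).1) (Eventually.of_forall fun x => norm_inner_le_norm _ _)
    have iud : ∀ k, Integrable (fun x => u x * (φ k x - u x)) (volume.restrict Ω) := fun k =>
      hu.integrable_mul (hd' k)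
    have e2 : ∀ k, ∫ x in Ω, inner ℝ (G x) (gradient (φ k) x) =
        (∫ x in Ω, inner ℝ (G x) (gradient (φ k) x - G x)) + ∫ x in Ω, ‖G x‖ ^ 2 := by
      intro k
      have : (∫ x in Ω, ‖G x‖ ^ 2) = ∫ x in Ω, inner ℝ (G x) (G x) := by
        congr 1; ext x; rw [real_inner_self_eq_norm_sq]
      rw [this, ← integral_add (iGd k) iGG]
      congr 1; ext x
      rw [inner_sub_right]; ring
    have e3 : ∀ k, ∫ x in Ω, u x * φ k x =
        (∫ x in Ω, u x * (φ k x - u x)) + ∫ x in Ω, u x ^ 2 := by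
      intro k
      have : (∫ x in Ω, u x ^ 2) = ∫ x in Ω, u x * u x := by
        congr 1; ext x; ring
      rw [this, ← integral_add (iud k) iuu]
      congr 1; ext x; ring
    have hGG : ∫ x in Ω, ‖G x‖ ^ 2 = lam1 Ω * ∫ x in Ω, u x ^ 2 := by
      have t1 : Tendsto (fun k => ∫ x in Ω, inner ℝ (G x) (gradient (φ k) x)) atTop
          (𝓝 (∫ x in Ω, ‖G x‖ ^ 2)) := by
        simp_rw [e2]
        simpa using p1.add_const (∫ x in Ω, ‖G x‖ ^ 2)
      have t2 : Tendsto (fun k => ∫ x in Ω, inner ℝ (G x) (gradient (φ k) x)) atTop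
          (𝓝 (lam1 Ω * ∫ x in Ω, u x ^ 2)) := by
        have : ∀ k, ∫ x in Ω, inner ℝ (G x) (gradient (φ k) x) = lam1 Ω * ∫ x in Ω, u x * φ k x :=
          fun k => hweak _ (hφ k)
        simp_rw [this, e3]
        have := (p2.add_const (∫ x in Ω, u x ^ 2)).const_mul (lam1 Ω)
        simpa using this
      exact tendsto_nhds_unique t1 t2
    have e4 : ∀ k, ∫ x in Ω, ‖gradient (φ k) x‖ ^ 2 =
        (∫ x in Ω, ‖gradient (φ k) x - G x‖ ^ 2) +
          (2 * (∫ x in Ω, inner ℝ (G x) (gradient (φ k) x - G x)) + ∫ x in Ω, ‖G x‖ ^ 2) := by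
      intro k
      have a1 : Integrable (fun x => ‖gradient (φ k) x - G x‖ ^ 2) (volume.restrict Ω) :=
        (hd k).norm.integrable_sq
      have a2 := (iGd k).const_mul 2
      have a3 : Integrable (fun x => ‖G x‖ ^ 2) (volume.restrict Ω) := hG.norm.integrable_sq
      have a23 : Integrable (fun x => 2 * inner ℝ (G x) (gradient (φ k) x - G x) + ‖G x‖ ^ 2)
        (volume.restrict Ω) := a2.add a3
      rw [← integral_const_mul, ← integral_add a2 a3, ← integral_add a1 a23]
      congr 1; ext x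
      have : gradient (φ k) x = (gradient (φ k) x - G x) + G x := by abel
      nth_rewrite 1 [this]
      rw [norm_add_sq_real, real_inner_comm]
      ring
    simp_rw [e1, e4]
    rw [esq, ← hGG]
    have := hl2.add ((p1.const_mul 2).add_const (∫ x in Ω, ‖G x‖ ^ 2))
    simpa using this

end Pool.Agent.Y288.SN
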