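import Pool.Agent.Y288.SN.Eig

set_option autoImplicit false

open MeasureTheory Set Metric Filter Topology

namespace Pool.Agent.Y288.SN

variable {d : ℕ} {Ω : Set (E (d + 1))} {u : E (d + 1) → ℝ}

theorem ball_radius_le (hb : Bornology.IsBounded Ω) {r : ℝ} {x : E (d + 1)}
    (h : ball x r ⊆ Ω) : r ≤ Metric.diam Ω := by
  have hD : 0 ≤ Metric.diam Ω := Metric.diam_nonneg
  by_contra hc
  push_neg at hc
  have hr : 0 < r := lt_of_le_of_lt hD hc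
  have he : ‖(ee 0 : E (d + 1))‖ = 1 := by unfold ee; simp
  obtain ⟨t, ht1, ht2⟩ := exists_between hc
  have ht0 : 0 ≤ t := hD.trans ht1.le
  have h1 : x ∈ Ω := h (mem_ball_self hr)
  have h2 : x + t • ee 0 ∈ Ω := by
    refine h ?_
    rw [mem_ball, dist_eq_norm, add_sub_cancel_left, norm_smul, he, mul_one, Real.norm_eq_abs,
      abs_of_nonneg ht0]
    exact ht2
  have h3 := Metric.dist_le_diam_of_mem hb h2 h1
  rw [dist_eq_norm, add_sub_cancel_left, norm_smul, he, mul_one, Real.norm_eq_abs,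
    abs_of_nonneg ht0] at h3
  linarith

theorem geom (hΩ : IsOpen Ω) (hb : Bornology.IsBounded Ω) (hne : Ω.Nonempty) :
    0 < inrad Ω ∧ inrad Ω ≤ Metric.diam Ω ∧ (∃ z, ball z (inrad Ω / 2) ⊆ Ω) ∧
    ∃ p ∈ Ω, ∃ q ∈ Ω, Metric.diam Ω / 2 ≤ ‖q - p‖ := by
  obtain ⟨x0, hx0⟩ := hne
  obtain ⟨r0, hr0, hball0⟩ := Metric.isOpen_iff.1 hΩ x0 hx0
  have hbdd : BddAbove {r : ℝ | ∃ x, ball x r ⊆ Ω} :=
    ⟨Metric.diam Ω, by rintro r ⟨x, hx⟩; exact ball_radius_le hb hx⟩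
  have hpos : 0 < inrad Ω := lt_of_lt_of_le hr0 (le_csSup hbdd ⟨x0, hball0⟩)
  have hle : inrad Ω ≤ Metric.diam Ω :=
    csSup_le ⟨r0, x0, hball0⟩ (by rintro r ⟨x, hx⟩; exact ball_radius_le hb hx)
  refine ⟨hpos, hle, ?_, ?_⟩
  · obtain ⟨r, ⟨z, hz⟩, hr⟩ := exists_lt_of_lt_csSup (s := {r : ℝ | ∃ x, ball x r ⊆ Ω})
      ⟨r0, x0, hball0⟩ (half_lt_self hpos)
    exact ⟨z, (ball_subset_ball hr.le).trans hz⟩
  · by_contra hc
    push_neg at hc
    have h1 : Metric.diam Ω ≤ Metric.diam Ω / 2 := by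
      refine Metric.diam_le_of_forall_dist_le (by linarith) fun x hx y hy => ?_
      rw [dist_comm, dist_eq_norm]
      exact (hc x hx y hy).le
    linarith

theorem main (hΩ : IsOpen Ω) (hconv : Convex ℝ Ω) (hb : Bornology.IsBounded Ω)
    (hne : Ω.Nonempty) (hu : IsFirstEigenfunction Ω u) :
    ENNReal.ofReal (inrad Ω ^ (((d + 1 : ℕ) : ℝ) / 2)) * eLpNorm u ⊤ (volume.restrict Ω) ≤
      ENNReal.ofReal (Real.sqrt (Mn (d + 1)) * (inrad Ω / Metric.diam Ω) ^ (1 / 6 : ℝ)) *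
        eLpNorm u 2 (volume.restrict Ω) := by
  obtain ⟨hρ, hρD, ⟨z, hz⟩, p, hp, q, hq, hpq⟩ := geom hΩ hb hne
  set ρ := inrad Ω with hρdef
  set D := Metric.diam Ω with hDdef
  have hD : 0 < D := lt_of_lt_of_le hρ hρD
  obtain ⟨φs, hφs⟩ := minSeq_of_eig hΩ hu
  obtain ⟨-, G, ⟨humem, -, -⟩, -⟩ := hu
  have hpt := pointwise hφs hΩ hconv hρ hρD hz hp hq hpq
  have hm : MeasurableSet Ω := hΩ.measurableSet
  have esq : ∫ x, Ω.indicator u x ^ 2 = ∫ x in Ω, u x ^ 2 := by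
    rw [← integral_indicator hm]
    congr 1; ext x
    by_cases hx : x ∈ Ω
    · simp [hx]
    · simp [hx]
  rw [esq] at hpt
  set I := ∫ x in Ω, u x ^ 2 with hI
  have hI0 : 0 ≤ I := integral_nonneg fun x => by positivity
  have hM := Mn_pos (d + 1)
  set B : ℝ := Real.sqrt (Mn (d + 1)) * (ρ ^ (((d + 1 : ℕ) : ℝ) / 2))⁻¹ * (ρ / D) ^ (1 / 6 : ℝ) *
    Real.sqrt I with hB
  have hB0 : 0 ≤ B := by positivity
  have hBsq : B ^ 2 = Mn (d + 1) * ((ρ ^ (d + 1))⁻¹ * (ρ / D) ^ (1 / 3 : ℝ)) * I := by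
    have e1 : ((ρ ^ (((d + 1 : ℕ) : ℝ) / 2))⁻¹) ^ 2 = (ρ ^ (d + 1))⁻¹ := by
      rw [inv_pow, ← Real.rpow_natCast (ρ ^ (((d + 1 : ℕ) : ℝ) / 2)), ← Real.rpow_mul hρ.le,
        ← Real.rpow_natCast ρ (d + 1)]
      congr 2
      push_cast
      ring
    have e2 : ((ρ / D) ^ (1 / 6 : ℝ)) ^ 2 = (ρ / D) ^ (1 / 3 : ℝ) := by
      rw [← Real.rpow_natCast ((ρ / D) ^ (1 / 6 : ℝ)), ← Real.rpow_mul (by positivity)]
      norm_num
    rw [hB, mul_pow, mul_pow, mul_pow, Real.sq_sqrt hM.le, Real.sq_sqrt hI0, e1, e2]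
    ring
  have hbd : ∀ᵐ x ∂(volume.restrict Ω), ‖u x‖ ≤ B := by
    rw [ae_restrict_iff' hm]
    filter_upwards [hpt] with x hx hxΩ
    rw [indicator_of_mem hxΩ, ← hBsq] at hx
    rw [Real.norm_eq_abs]
    exact abs_le_of_sq_le_sq hx hB0
  have h1 : eLpNorm u ⊤ (volume.restrict Ω) ≤ ENNReal.ofReal B := by
    rw [eLpNorm_exponent_top]
    exact eLpNormEssSup_le_of_ae_bound hbd
  have h2 : eLpNorm u 2 (volume.restrict Ω) = ENNReal.ofReal (Real.sqrt I) := by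
    rw [humem.eLpNorm_eq_integral_rpow_norm (by norm_num) (by norm_num), Real.sqrt_eq_rpow]
    congr 1
    simp only [ENNReal.toReal_ofNat]
    congr 1
    · rw [hI]
      refine integral_congr_ae (Eventually.of_forall fun x => ?_)
      simp only
      rw [show (2 : ℝ) = ((2 : ℕ) : ℝ) by norm_num, Real.rpow_natCast, Real.norm_eq_abs, sq_abs]
    · norm_num
  rw [h2]
  calc _ ≤ ENNReal.ofReal (ρ ^ (((d + 1 : ℕ) : ℝ) / 2)) * ENNReal.ofReal B := by gcongr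
    _ = ENNReal.ofReal (Real.sqrt (Mn (d + 1)) * (ρ / D) ^ (1 / 6 : ℝ)) *
        ENNReal.ofReal (Real.sqrt I) := by
      rw [← ENNReal.ofReal_mul (by positivity), ← ENNReal.ofReal_mul (by positivity)]
      congr 1
      rw [hB]
      have : ρ ^ (((d + 1 : ℕ) : ℝ) / 2) ≠ 0 := by positivity
      field_simp

end Pool.Agent.Y288.SN
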