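import Pool.Agent.Y288.SN.SlabBound

set_option autoImplicit false

open MeasureTheory Set Metric Filter Topology

namespace Pool.Agent.Y288.SN

variable {n : ℕ} {Ω : Set (E n)} {φ ψ η g : E n → ℝ}

/-- the Gaussian kernel without normalisation -/
noncomputable def gk (s : ℝ) (z x : E n) : ℝ := Real.exp (-(‖x - z‖ ^ 2 / (4 * s)))

theorem gk_pos (s : ℝ) (z x : E n) : 0 < gk s z x := Real.exp_pos _

theorem gk_le {s : ℝ} (hs : 0 < s) (z x : E n) : gk s z x ≤ 1 := by
  unfold gk
  rw [Real.exp_le_one_iff]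
  have : 0 ≤ ‖x - z‖ ^ 2 / (4 * s) := by positivity
  linarith

theorem hasFDerivAt_gk (s : ℝ) (z x : E n) :
    HasFDerivAt (gk s z) ((-(1 / (2 * s)) * gk s z x) • innerSL ℝ (x - z)) x := by
  have h1 : HasFDerivAt (fun x : E n => ‖x - z‖ ^ 2) (2 • (innerSL ℝ (x - z))) x := by
    have := ((hasFDerivAt_id (𝕜 := ℝ) x).sub_const z).norm_sq
    refine HasFDerivAt.congr_fderiv this ?_
    ext v
    simp
  have h2 : HasFDerivAt (fun x : E n => -(‖x - z‖ ^ 2 / (4 * s)))
      (-((1 / (4 * s)) • (2 • (innerSL ℝ (x - z))))) x := by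
    have := (h1.const_mul (1 / (4 * s))).neg
    refine this.congr_of_eventuallyEq (Eventually.of_forall fun y => ?_)
    simp only [Pi.neg_apply]
    ring
  have h3 := h2.exp
  refine h3.congr_fderiv ?_
  ext v
  simp only [gk, one_div, mul_inv_rev, nsmul_eq_mul, Nat.cast_ofNat, smul_neg, neg_mul,
    ContinuousLinearMap.neg_apply, ContinuousLinearMap.smul_apply, smul_eq_mul]
  ring

theorem contDiff_gk (s : ℝ) (z : E n) : ContDiff ℝ (⊤ : ℕ∞) (gk s z) := by
  unfold gk
  exact (((contDiff_id.sub contDiff_const).norm_sq ℝ).div_const (4 * s)).neg.exp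

theorem fderiv_gk (s : ℝ) (z x v : E n) :
    fderiv ℝ (gk s z) x v = -(1 / (2 * s)) * gk s z x * inner ℝ (x - z) v := by
  rw [(hasFDerivAt_gk s z x).fderiv]
  simp only [ContinuousLinearMap.smul_apply, smul_eq_mul, innerSL_apply_apply]

theorem lapl_gk {s : ℝ} (hs : 0 < s) (z x : E n) :
    lapl (gk s z) x = (‖x - z‖ ^ 2 / (4 * s ^ 2) - n / (2 * s)) * gk s z x := by
  unfold lapl
  have e1 : ∀ i : Fin n, fderiv ℝ (fun y => fderiv ℝ (gk s z) y (ee i)) x (ee i) =
      gk s z x * (1 / (4 * s ^ 2) * (inner ℝ (x - z) (ee i) * inner ℝ (x - z) (ee i)) -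
        1 / (2 * s)) := by
    intro i
    have h0 : (fun y => fderiv ℝ (gk s z) y (ee i)) =
        fun y => gk s z y * (-(1 / (2 * s)) * inner ℝ (y - z) (ee i)) := by
      ext y; rw [fderiv_gk]; ring
    rw [h0]
    have h1 : HasFDerivAt (fun y : E n => inner ℝ (y - z) (ee i)) (innerSL ℝ (ee i)) x := by
      have : (fun y : E n => inner ℝ (y - z) (ee i)) = fun y : E n => innerSL ℝ (ee i) (y - z) := by
        ext y; rw [innerSL_apply_apply, real_inner_comm]
      rw [this]
      exact ((innerSL ℝ (ee i)).hasFDerivAt (x := x - z)).comp x ((hasFDerivAt_id x).sub_const z)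
    have h2 : HasFDerivAt (fun y => gk s z y * (-(1 / (2 * s)) * inner ℝ (y - z) (ee i))) _ x :=
      (hasFDerivAt_gk s z x).mul (h1.const_mul (-(1 / (2 * s))))
    rw [h2.fderiv]
    simp only [ContinuousLinearMap.add_apply, ContinuousLinearMap.smul_apply, smul_eq_mul,
      innerSL_apply_apply]
    have h3 : inner ℝ (ee i) (ee i) = (1 : ℝ) := by
      unfold ee; simp
    rw [h3]
    field_simp
    ring
  simp_rw [e1]
  rw [← Finset.mul_sum, Finset.sum_sub_distrib, ← Finset.mul_sum, ← inner_eq_sum,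
    real_inner_self_eq_norm_sq]
  simp
  ring

theorem te_le (t : ℝ) : t * Real.exp (-t) ≤ 1 := by
  have h1 : t + 1 ≤ Real.exp t := Real.add_one_le_exp t
  have h2 : Real.exp t * Real.exp (-t) = 1 := by rw [← Real.exp_add]; simp
  have h3 : 0 < Real.exp (-t) := Real.exp_pos _
  nlinarith

theorem gk_quad {s : ℝ} (hs : 0 < s) (z x : E n) :
    ‖x - z‖ ^ 2 / (4 * s ^ 2) * gk s z x ≤ 1 / s := by
  have h := te_le (‖x - z‖ ^ 2 / (4 * s))
  have e : ‖x - z‖ ^ 2 / (4 * s ^ 2) * gk s z x =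
      1 / s * (‖x - z‖ ^ 2 / (4 * s) * Real.exp (-(‖x - z‖ ^ 2 / (4 * s)))) := by
    unfold gk
    field_simp
  rw [e]
  calc _ ≤ 1 / s * 1 := mul_le_mul_of_nonneg_left h (by positivity)
    _ = _ := mul_one _

theorem lapl_gk_bound {s : ℝ} (hs : 0 < s) (z x : E n) :
    |lapl (gk s z) x| ≤ 1 / s + n / (2 * s) := by
  rw [lapl_gk hs, sub_mul]
  refine (abs_sub _ _).trans (add_le_add ?_ ?_)
  · have h0 := gk_pos s z x
    rw [abs_of_nonneg (by positivity)]
    exact gk_quad hs z x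
  · have h0 := gk_pos s z x
    rw [abs_of_nonneg (by positivity)]
    calc (n : ℝ) / (2 * s) * gk s z x ≤ n / (2 * s) * 1 :=
          mul_le_mul_of_nonneg_left (gk_le hs z x) (by positivity)
      _ = _ := mul_one _

theorem grad_gk_bound {s : ℝ} (hs : 0 < s) (z x : E n) :
    ‖gradient (gk s z) x‖ ≤ 1 / (2 * s) + 1 := by
  rw [norm_grad, (hasFDerivAt_gk s z x).fderiv, norm_smul, innerSL_apply_norm, norm_mul, norm_neg,
    Real.norm_eq_abs, Real.norm_eq_abs, abs_of_pos (gk_pos s z x),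
    abs_of_pos (by positivity : 0 < 1 / (2 * s))]
  have h0 := gk_pos s z x
  have h1 := gk_le hs z x
  have h2 := gk_quad hs z x
  -- `a = ‖x - z‖`, `a/(2s) g ≤ 1/2 (a²/(2s) ...)`
  set a := ‖x - z‖
  have ha : 0 ≤ a := norm_nonneg _
  have h3 : a ≤ s + a ^ 2 / (4 * s) := by
    have : 0 ≤ (a - 2 * s) ^ 2 / (4 * s) := by positivity
    have e : (a - 2 * s) ^ 2 / (4 * s) = a ^ 2 / (4 * s) - a + s := by
      field_simp
      ring
    linarith
  have h4 : 1 / (2 * s) * gk s z x * a ≤ 1 / (2 * s) * gk s z x * (s + a ^ 2 / (4 * s)) :=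
    mul_le_mul_of_nonneg_left h3 (by positivity)
  have e5 : 1 / (2 * s) * gk s z x * (s + a ^ 2 / (4 * s)) =
      1 / 2 * gk s z x + 1 / 2 * (a ^ 2 / (4 * s ^ 2) * gk s z x) := by
    field_simp
  rw [e5] at h4
  have e6 : 1 / (2 * s) = 1 / 2 * (1 / s) := by field_simp
  rw [e6] at h4 ⊢
  linarith

variable {u : E n → ℝ} {φs : ℕ → E n → ℝ}

noncomputable def gint (u : E n → ℝ) (z : E n) (s : ℝ) : ℝ := ∫ x, u x ^ 2 * gk s z x

theorem int_bdd_weight (hu : MemLp u 2 volume) {w : E n → ℝ} {W : ℝ} (hw : Continuous w)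
    (hwb : ∀ x, |w x| ≤ W) : Integrable (fun x => u x ^ 2 * w x) := by
  refine (memLp_sq_int hu).mul_bdd (c := W) hw.aestronglyMeasurable
    (Eventually.of_forall fun x => ?_)
  rw [Real.norm_eq_abs]; exact hwb x

theorem hasDerivAt_gint (hu : MemLp u 2 volume) (z : E n) {s : ℝ} (hs : 0 < s) :
    HasDerivAt (gint u z) (∫ x, u x ^ 2 * (‖x - z‖ ^ 2 / (4 * s ^ 2) * gk s z x)) s := by
  unfold gint
  have hpos : ∀ t ∈ ball s (s / 2), 0 < t ∧ s / 2 < t := by
    intro t ht
    rw [mem_ball, Real.dist_eq, abs_lt] at ht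
    constructor <;> linarith [ht.1]
  have key := hasDerivAt_integral_of_dominated_loc_of_deriv_le (μ := volume) (𝕜 := ℝ)
    (F := fun t x => u x ^ 2 * gk t z x)
    (F' := fun t x => u x ^ 2 * (‖x - z‖ ^ 2 / (4 * t ^ 2) * gk t z x))
    (x₀ := s) (s := ball s (s / 2)) (bound := fun x => u x ^ 2 * (2 / s))
    (ball_mem_nhds s (by positivity)) ?_ ?_ ?_ ?_ ?_ ?_
  · exact key.2
  · refine Eventually.of_forall fun t => ?_
    exact (memLp_sq_int hu).aestronglyMeasurable.mul (contDiff_gk t z).continuous.aestronglyMeasurable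
  · exact int_bdd_weight hu (W := 1) (contDiff_gk s z).continuous fun x => by
      rw [abs_of_pos (gk_pos _ _ _)]; exact gk_le hs z x
  · have hc : Continuous (fun x : E n => ‖x - z‖ ^ 2 / (4 * s ^ 2) * gk s z x) := by
      have := (contDiff_gk s z).continuous
      fun_prop
    exact (memLp_sq_int hu).aestronglyMeasurable.mul hc.aestronglyMeasurable
  · refine Eventually.of_forall fun x t ht => ?_
    obtain ⟨h1, h2⟩ := hpos t ht
    have h0 := gk_pos t z x
    rw [Real.norm_eq_abs, abs_of_nonneg (by positivity)]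
    refine mul_le_mul_of_nonneg_left ((gk_quad h1 z x).trans ?_) (sq_nonneg _)
    rw [div_le_div_iff₀ h1 hs]
    linarith
  · exact (memLp_sq_int hu).mul_const _
  · refine Eventually.of_forall fun x t ht => ?_
    obtain ⟨h1, h2⟩ := hpos t ht
    have d1 : HasDerivAt (fun t : ℝ => -(‖x - z‖ ^ 2 / (4 * t))) (‖x - z‖ ^ 2 / (4 * t ^ 2)) t := by
      have := ((hasDerivAt_inv h1.ne').const_mul (‖x - z‖ ^ 2 / 4)).neg
      refine (this.congr_of_eventuallyEq (Eventually.of_forall fun y => ?_)).congr_deriv ?_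
      · simp only [Pi.neg_apply]
        by_cases hy : y = 0
        · subst hy; simp
        · field_simp
      · field_simp
    have d2 := (d1.exp).const_mul (u x ^ 2)
    refine d2.congr_deriv ?_
    unfold gk
    ring

theorem mono_gint (h : MinSeq Ω u φs) (z : E n) :
    MonotoneOn (fun s : ℝ => Real.exp (2 * lam1 Ω * s) * s ^ (-((n : ℝ) / 2)) * gint u z s)
      (Ioi 0) := by
  have hder : ∀ s : ℝ, 0 < s → HasDerivAt
      (fun s : ℝ => Real.exp (2 * lam1 Ω * s) * s ^ (-((n : ℝ) / 2)) * gint u z s)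
      (Real.exp (2 * lam1 Ω * s) * s ^ (-((n : ℝ) / 2)) *
        (2 * ∫ x, u x ^ 2 * (1 / 2 * lapl (gk s z) x + (lam1 Ω - 0) * gk s z x))) s := by
    intro s hs
    have d1 : HasDerivAt (fun s : ℝ => Real.exp (2 * lam1 Ω * s))
        (Real.exp (2 * lam1 Ω * s) * (2 * lam1 Ω)) s := by
      have := ((hasDerivAt_id s).const_mul (2 * lam1 Ω)).exp
      simpa using this
    have d2 : HasDerivAt (fun s : ℝ => s ^ (-((n : ℝ) / 2)))
        (-((n : ℝ) / 2) * s ^ (-((n : ℝ) / 2) - 1)) s :=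
      Real.hasDerivAt_rpow_const (Or.inl hs.ne')
    have d3 := (d1.mul d2).mul (hasDerivAt_gint h.memu z hs)
    refine HasDerivAt.congr_deriv d3 ?_
    simp only [Pi.mul_apply]
    have e1 : s ^ (-((n : ℝ) / 2) - 1) = s ^ (-((n : ℝ) / 2)) / s := by
      rw [Real.rpow_sub_one hs.ne']
    have i1 : Integrable (fun x => u x ^ 2 * gk s z x) :=
      int_bdd_weight h.memu (W := 1) (contDiff_gk s z).continuous fun x => by
        rw [abs_of_pos (gk_pos _ _ _)]; exact gk_le hs z x
    have i2 : Integrable (fun x => u x ^ 2 * (‖x - z‖ ^ 2 / (4 * s ^ 2) * gk s z x)) := by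
      refine int_bdd_weight h.memu (W := 1 / s) ?_ fun x => ?_
      · have := (contDiff_gk s z).continuous
        fun_prop
      · have h0 := gk_pos s z x
        rw [abs_of_nonneg (by positivity)]
        exact gk_quad hs z x
    have e2 : (∫ x, u x ^ 2 * (1 / 2 * lapl (gk s z) x + (lam1 Ω - 0) * gk s z x)) =
        1 / 2 * (∫ x, u x ^ 2 * (‖x - z‖ ^ 2 / (4 * s ^ 2) * gk s z x)) +
        (lam1 Ω - n / (4 * s)) * ∫ x, u x ^ 2 * gk s z x := by
      rw [← integral_const_mul, ← integral_const_mul,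
        ← integral_add (i2.const_mul (1 / 2)) (i1.const_mul (lam1 Ω - n / (4 * s)))]
      congr 1
      ext x
      rw [lapl_gk hs]
      field_simp
      ring
    rw [e2, e1]
    unfold gint
    set A := ∫ x, u x ^ 2 * gk s z x
    set B := ∫ x, u x ^ 2 * (‖x - z‖ ^ 2 / (4 * s ^ 2) * gk s z x)
    field_simp
    ring
  refine monotoneOn_of_deriv_nonneg (convex_Ioi 0) ?_ ?_ ?_
  · intro s hs
    exact (hder s hs).continuousAt.continuousWithinAt
  · intro s hs
    rw [interior_Ioi] at hs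
    exact (hder s hs).differentiableAt.differentiableWithinAt
  · intro s hs
    rw [interior_Ioi] at hs
    rw [(hder s hs).deriv]
    have hs' : (0 : ℝ) < s := hs
    have hw := h.weighted (B := 1) (B' := 1 / (2 * s) + 1) (B'' := 1 / s + n / (2 * s)) (Λ := 0)
      (contDiff_gk s z) (fun x => by rw [abs_of_pos (gk_pos _ _ _)]; exact gk_le hs' z x)
      (grad_gk_bound hs' z) (lapl_gk_bound hs' z) (fun ψ hψ => by
        rw [zero_mul]
        exact integral_nonneg fun x => mul_nonneg (gk_pos s z x).le (by positivity))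
    positivity

end Pool.Agent.Y288.SN
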