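import Pool.Agent.Y288.SN.Cyl

set_option autoImplicit false

open MeasureTheory Set Metric Filter Topology

namespace Pool.Agent.Y288.SN

variable {n : ℕ} {Ω ω : Set (E n)} {φ : E n → ℝ}

theorem grad_comp_isom (T : E n ≃ₗᵢ[ℝ] E n) (hφ : Differentiable ℝ φ) (x : E n) :
    gradient (fun x => φ (T x)) x = T.symm (gradient φ (T x)) := by
  refine ext_inner_right ℝ fun v => ?_
  rw [inner_grad, ← T.inner_map_map, T.apply_symm_apply, inner_grad]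
  have h1 : HasFDerivAt (fun x => φ (T x))
      ((fderiv ℝ φ (T x)).comp (T.toContinuousLinearEquiv : E n →L[ℝ] E n)) x :=
    (hφ (T x)).hasFDerivAt.comp x T.toContinuousLinearEquiv.hasFDerivAt
  rw [h1.fderiv]
  rfl

theorem integral_isom (T : E n ≃ₗᵢ[ℝ] E n) (f : E n → ℝ) : ∫ x, f (T x) = ∫ x, f x :=
  (LinearIsometryEquiv.measurePreserving T).integral_comp T.toHomeomorph.measurableEmbedding f

theorem IsTest.comp_isom (T : E n ≃ₗᵢ[ℝ] E n) (h : IsTest (T '' Ω) φ) :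
    IsTest Ω (fun x => φ (T x)) := by
  have hsub : tsupport (fun x => φ (T x)) ⊆ T ⁻¹' tsupport φ :=
    tsupport_comp_subset_preimage φ T.continuous
  refine ⟨h.1.comp T.toContinuousLinearEquiv.contDiff, ?_, ?_⟩
  · refine IsCompact.of_isClosed_subset (h.2.1.isCompact.image T.symm.continuous)
      (isClosed_tsupport _) fun x hx => ?_
    exact ⟨T x, hsub hx, T.symm_apply_apply x⟩
  · intro x hx
    obtain ⟨y, hy, hxy⟩ := h.2.2 (hsub hx)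
    rwa [← T.injective hxy]

theorem lam1_isom_le (T : E n ≃ₗᵢ[ℝ] E n) (hΩ : IsOpen Ω) (hne : Ω.Nonempty) :
    lam1 Ω ≤ lam1 (T '' Ω) := by
  have hne' : (T '' Ω).Nonempty := hne.image _
  have hop : IsOpen (T '' Ω) := T.toHomeomorph.isOpenMap Ω hΩ
  obtain ⟨φ0, h0, hne0⟩ := IsTest.exists_of_open hop hne'
  refine le_csInf ⟨_, φ0, h0, hne0, rfl⟩ ?_
  rintro r ⟨φ, hφ, hφ0, rfl⟩
  have h1 := hφ.comp_isom T
  have h2 := lam_le h1
  have e1 : (∫ x, φ (T x) ^ 2) = ∫ x, φ x ^ 2 := integral_isom T (fun x => φ x ^ 2)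
  have e2 : (∫ x, ‖gradient (fun x => φ (T x)) x‖ ^ 2) = ∫ x, ‖gradient φ x‖ ^ 2 := by
    rw [← integral_isom T (fun x => ‖gradient φ x‖ ^ 2)]
    congr 1
    ext x
    rw [grad_comp_isom T hφ.diff, T.symm.norm_map]
  rw [e1, e2] at h2
  rwa [le_div_iff₀ (hφ.pos_of_ne hφ0)]

theorem lamDeg_isom_le (T : E n ≃ₗᵢ[ℝ] E n) (hΩ : IsOpen Ω) (hne : Ω.Nonempty) {e : E n}
    (he : ‖e‖ = 1) : lamDeg (T '' Ω) (T e) ≤ lamDeg Ω e := by
  obtain ⟨φ0, h0, hne0⟩ := IsTest.exists_of_open hΩ hne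
  refine le_csInf ⟨_, φ0, h0, hne0, rfl⟩ ?_
  rintro r ⟨φ, hφ, hφ0, rfl⟩
  have e0 : T.symm '' (T '' Ω) = Ω := by
    rw [image_image]
    simp
  have h1 : IsTest (T '' Ω) (fun x => φ (T.symm x)) := by
    refine IsTest.comp_isom (Ω := T '' Ω) T.symm ?_
    rw [e0]; exact hφ
  have he' : ‖T e‖ = 1 := by rw [T.norm_map, he]
  have h2 := lamDeg_le he' h1
  have e1 : (∫ x, φ (T.symm x) ^ 2) = ∫ x, φ x ^ 2 := integral_isom T.symm (fun x => φ x ^ 2)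
  have e2 : degE (T e) (fun x => φ (T.symm x)) = degE e φ := by
    unfold degE
    rw [← integral_isom T.symm (fun x => ‖gradient φ x‖ ^ 2 - inner ℝ (gradient φ x) e ^ 2)]
    congr 1
    ext x
    rw [grad_comp_isom T.symm hφ.diff, T.symm.symm.norm_map]
    congr 2
    rw [LinearIsometryEquiv.symm_symm, T.inner_map_map]
  rw [e1, e2] at h2
  rwa [le_div_iff₀ (hφ.pos_of_ne hφ0)]

/-- the general form of the cylinder estimate -/
theorem cyl_gen {d : ℕ} {Ω : Set (E (d + 1))} (hΩ : IsOpen Ω) (hconv : Convex ℝ Ω)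
    {p e : E (d + 1)} (he : ‖e‖ = 1) {D θ : ℝ} (hD : 0 < D)
    (hp : p ∈ Ω) (hq : p + D • e ∈ Ω) (hθ : 0 < θ) (hθ1 : θ < 1) :
    lam1 Ω ≤ A0 / (θ * D / 2) ^ 2 + lamDeg Ω e / (1 - θ) ^ 2 := by
  have he0 : ‖(ee 0 : E (d + 1))‖ = 1 := by unfold ee; simp
  let T : E (d + 1) ≃ₗᵢ[ℝ] E (d + 1) := Submodule.reflection (Submodule.span ℝ {e - ee 0})ᗮ
  have hT : T e = ee 0 := Submodule.reflection_sub (by rw [he, he0])
  have h1 : IsOpen (T '' Ω) := T.toHomeomorph.isOpenMap Ω hΩ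
  have h2 : Convex ℝ (T '' Ω) := hconv.linear_image T.toLinearEquiv.toLinearMap
  have h3 : T p ∈ T '' Ω := mem_image_of_mem _ hp
  have h4 : T p + D • ee 0 ∈ T '' Ω := by
    refine ⟨p + D • e, hq, ?_⟩
    rw [map_add, map_smul, hT]
  have h5 := cyl h1 h2 hD h3 h4 hθ hθ1
  have h6 := lam1_isom_le T hΩ ⟨p, hp⟩
  have h7 := lamDeg_isom_le T hΩ ⟨p, hp⟩ he
  rw [hT] at h7
  have h8 : lamDeg (T '' Ω) (ee 0) / (1 - θ) ^ 2 ≤ lamDeg Ω e / (1 - θ) ^ 2 :=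
    div_le_div_of_nonneg_right h7 (by positivity)
  linarith

theorem lamDeg_nonneg {e : E n} (he : ‖e‖ = 1) : 0 ≤ lamDeg Ω e := by
  refine Real.sInf_nonneg ?_
  rintro r ⟨φ, -, -, rfl⟩
  exact div_nonneg (degE_nonneg he φ) (integral_nonneg fun x => by positivity)

theorem lamDeg_le_lam1 {e : E n} (he : ‖e‖ = 1) (hΩ : IsOpen Ω) (hne : Ω.Nonempty) :
    lamDeg Ω e ≤ lam1 Ω := by
  obtain ⟨φ0, h0, hne0⟩ := IsTest.exists_of_open hΩ hne
  refine le_csInf ⟨_, φ0, h0, hne0, rfl⟩ ?_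
  rintro r ⟨φ, hφ, hφ0, rfl⟩
  rw [le_div_iff₀ (hφ.pos_of_ne hφ0)]
  refine (lamDeg_le he hφ).trans ?_
  refine integral_mono (hφ.int_deg e) hφ.int_gradsq fun x => ?_
  simp only
  nlinarith [sq_nonneg (inner ℝ (gradient φ x) e : ℝ)]

/-- a fixed bump in the unit ball -/
noncomputable def bb (n : ℕ) : ContDiffBump (0 : E n) := ⟨1 / 4, 1 / 2, by norm_num, by norm_num⟩

theorem bb_test (n : ℕ) : IsTest (ball (0 : E n) 1) (bb n) := by
  refine ⟨(bb n).contDiff, (bb n).hasCompactSupport, ?_⟩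
  rw [(bb n).tsupport_eq]
  refine closedBall_subset_ball ?_
  show (1 / 2 : ℝ) < 1
  norm_num

theorem bb_ne (n : ℕ) : (bb n : E n → ℝ) ≠ 0 := by
  intro h
  have h1 : bb n 0 = 1 := (bb n).one_of_mem_closedBall (by simp [bb])
  rw [h] at h1
  simp at h1

noncomputable def Cn (n : ℕ) : ℝ := (∫ x, ‖gradient (bb n) x‖ ^ 2) / ∫ x, bb n x ^ 2

theorem Cn_nonneg (n : ℕ) : 0 ≤ Cn n :=
  div_nonneg (integral_nonneg fun x => by positivity) (integral_nonneg fun x => by positivity)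

theorem IsTest.mono (h : IsTest ω φ) (hsub : ω ⊆ Ω) : IsTest Ω φ := ⟨h.1, h.2.1, h.2.2.trans hsub⟩

theorem lam1_ball_le {z : E n} {r : ℝ} (hr : 0 < r) (hball : ball z r ⊆ Ω) :
    lam1 Ω ≤ Cn n / r ^ 2 := by
  have hκ : 0 < r⁻¹ := by positivity
  obtain ⟨t1, t2, t3⟩ := scale_test (bb_test n) hκ (-(r⁻¹ • z))
  have t4 : IsTest Ω (fun y => bb n (r⁻¹ • y + -(r⁻¹ • z))) := by
    refine t1.mono fun y hy => hball ?_
    simp only [mem_setOf_eq, mem_ball, dist_zero_right] at hy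
    rw [mem_ball, dist_eq_norm]
    have e : r⁻¹ • y + -(r⁻¹ • z) = r⁻¹ • (y - z) := by module
    rw [e, norm_smul, Real.norm_eq_abs, abs_of_pos hκ, inv_mul_lt_iff₀ hr] at hy
    linarith
  have h1 := lam_le t4
  rw [t2, t3] at h1
  have hpos := (bb_test n).pos_of_ne (bb_ne n)
  have hg : ∫ y, ‖gradient (bb n) y‖ ^ 2 = Cn n * ∫ y, bb n y ^ 2 := by
    unfold Cn; field_simp
  rw [hg] at h1
  have hc : 0 < ((r⁻¹) ^ n)⁻¹ * ∫ y, bb n y ^ 2 := by positivity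
  have h2 : lam1 Ω * (((r⁻¹) ^ n)⁻¹ * ∫ y, bb n y ^ 2) ≤
      Cn n / r ^ 2 * (((r⁻¹) ^ n)⁻¹ * ∫ y, bb n y ^ 2) := by
    calc _ ≤ _ := h1
      _ = _ := by
        rw [inv_pow]
        ring
  exact le_of_mul_le_mul_right h2 hc

end Pool.Agent.Y288.SN
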