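import Pool.Agent.Y288.SN.Weight

set_option autoImplicit false

open MeasureTheory Set Metric Filter Topology

namespace Pool.Agent.Y288.SN

variable {n : ℕ} {Ω : Set (E n)} {φ ψ η g : E n → ℝ}

/-- minimising sequences with limit `u` -/
structure MinSeq (Ω : Set (E n)) (u : E n → ℝ) (φ : ℕ → E n → ℝ) : Prop where
  test : ∀ k, IsTest Ω (φ k)
  memu : MemLp u 2 volume
  lim : Tendsto (fun k => ∫ x, (φ k x - u x) ^ 2) atTop (𝓝 0)
  energy : Tendsto (fun k => ∫ x, ‖gradient (φ k) x‖ ^ 2) atTop (𝓝 (lam1 Ω * ∫ x, u x ^ 2))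

theorem IsTest.memLp (h : IsTest Ω φ) : MemLp φ 2 volume := by
  exact h.cont.memLp_of_hasCompactSupport h.2.1

theorem memLp_sq_int {f : E n → ℝ} (hf : MemLp f 2 volume) : Integrable (fun x => f x ^ 2) :=
  hf.integrable_sq

/-- Cauchy-Schwarz -/
theorem cs_int {f g : E n → ℝ} (hf : MemLp f 2 volume) (hg : MemLp g 2 volume) :
    (∫ x, |f x| * |g x|) ^ 2 ≤ (∫ x, f x ^ 2) * ∫ x, g x ^ 2 := by
  have key : ∀ t : ℝ, 0 ≤ (∫ x, g x ^ 2) * (t * t) + 2 * (∫ x, |f x| * |g x|) * t +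
      ∫ x, f x ^ 2 := by
    intro t
    have i1 := (memLp_sq_int hg).const_mul (t * t)
    have i2 : Integrable (fun x => |f x| * |g x|) := by
      have := hf.integrable_mul hg
      exact this.abs.congr (Eventually.of_forall fun x => by simp [abs_mul])
    have i3 := i2.const_mul (2 * t)
    have i4 := memLp_sq_int hf
    have e : (∫ x, g x ^ 2) * (t * t) + 2 * (∫ x, |f x| * |g x|) * t + ∫ x, f x ^ 2 =
        ∫ x, (|f x| + t * |g x|) ^ 2 := by
      have e1 : ∀ x, (|f x| + t * |g x|) ^ 2 = f x ^ 2 + (2 * t * (|f x| * |g x|) +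
          t * t * g x ^ 2) := by
        intro x
        rw [add_sq, mul_pow, sq_abs, sq_abs]; ring
      simp_rw [e1]
      have i5 : Integrable (fun x => 2 * t * (|f x| * |g x|) + t * t * g x ^ 2) := i3.add i1
      rw [integral_add i4 i5, integral_add i3 i1, integral_const_mul, integral_const_mul]
      ring
    rw [e]
    exact integral_nonneg fun x => by positivity
  have := discrim_le_zero key
  unfold discrim at this
  nlinarith

theorem weight_diff {u w : E n → ℝ} {W : ℝ} (hW : 0 ≤ W) (hw : Continuous w)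
    (hwb : ∀ x, |w x| ≤ W) (hf : MemLp φ 2 volume) (hu : MemLp u 2 volume) :
    |(∫ x, φ x ^ 2 * w x) - ∫ x, u x ^ 2 * w x| ≤
      W * (∫ x, (φ x - u x) ^ 2) + 2 * W * Real.sqrt ((∫ x, u x ^ 2) * ∫ x, (φ x - u x) ^ 2) := by
  have hd : MemLp (fun x => φ x - u x) 2 volume := hf.sub hu
  have bm : ∀ {f : E n → ℝ}, Integrable f → Integrable (fun x => f x * w x) := by
    intro f hf'
    refine hf'.mul_bdd (c := W) hw.aestronglyMeasurable (Eventually.of_forall fun x => ?_)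
    rw [Real.norm_eq_abs]; exact hwb x
  have i1 := bm (memLp_sq_int hf)
  have i2 := bm (memLp_sq_int hu)
  rw [← integral_sub i1 i2]
  have i3 := (memLp_sq_int hd).const_mul W
  have i4 : Integrable (fun x => |u x| * |φ x - u x|) := by
    have := hu.integrable_mul hd
    exact this.abs.congr (Eventually.of_forall fun x => by simp [abs_mul])
  have i5 := i4.const_mul (2 * W)
  have h1 : |∫ x, (φ x ^ 2 * w x - u x ^ 2 * w x)| ≤
      ∫ x, (W * (φ x - u x) ^ 2 + 2 * W * (|u x| * |φ x - u x|)) := by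
    rw [← Real.norm_eq_abs]
    refine norm_integral_le_of_norm_le (i3.add i5) (Eventually.of_forall fun x => ?_)
    have e : φ x ^ 2 * w x - u x ^ 2 * w x = ((φ x - u x) ^ 2 + 2 * (u x * (φ x - u x))) * w x := by
      ring
    rw [e, Real.norm_eq_abs, abs_mul]
    have h2 : |(φ x - u x) ^ 2 + 2 * (u x * (φ x - u x))| ≤
        (φ x - u x) ^ 2 + 2 * (|u x| * |φ x - u x|) := by
      refine (abs_add_le _ _).trans ?_
      rw [abs_of_nonneg (sq_nonneg _), abs_mul, abs_mul, abs_two]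
    have h3 : 0 ≤ (φ x - u x) ^ 2 + 2 * (|u x| * |φ x - u x|) := by positivity
    calc _ ≤ ((φ x - u x) ^ 2 + 2 * (|u x| * |φ x - u x|)) * W :=
          mul_le_mul h2 (hwb x) (abs_nonneg _) h3
      _ = _ := by ring
  refine h1.trans ?_
  rw [integral_add i3 i5, integral_const_mul, integral_const_mul]
  have h4 := cs_int hu hd
  have h5 : (∫ x, |u x| * |φ x - u x|) ≤
      Real.sqrt ((∫ x, u x ^ 2) * ∫ x, (φ x - u x) ^ 2) := Real.le_sqrt_of_sq_le h4
  have h6 : 2 * W * (∫ x, |u x| * |φ x - u x|) ≤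
      2 * W * Real.sqrt ((∫ x, u x ^ 2) * ∫ x, (φ x - u x) ^ 2) :=
    mul_le_mul_of_nonneg_left h5 (by positivity)
  linarith

theorem MinSeq.tendsto_weight {u w : E n → ℝ} {φ : ℕ → E n → ℝ} {W : ℝ} (hW : 0 ≤ W)
    (h : MinSeq Ω u φ) (hw : Continuous w) (hwb : ∀ x, |w x| ≤ W) :
    Tendsto (fun k => ∫ x, φ k x ^ 2 * w x) atTop (𝓝 (∫ x, u x ^ 2 * w x)) := by
  rw [tendsto_iff_norm_sub_tendsto_zero]
  have h2 : Tendsto (fun k => W * (∫ x, (φ k x - u x) ^ 2) +
      2 * W * Real.sqrt ((∫ x, u x ^ 2) * ∫ x, (φ k x - u x) ^ 2)) atTop (𝓝 0) := by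
    have a := h.lim.const_mul W
    have b := ((h.lim.const_mul (∫ x, u x ^ 2)).sqrt).const_mul (2 * W)
    simpa using a.add b
  refine squeeze_zero (fun k => norm_nonneg _) (fun k => ?_) h2
  rw [Real.norm_eq_abs]
  exact weight_diff hW hw hwb (h.test k).memLp h.memu

theorem MinSeq.tendsto_sq {u : E n → ℝ} {φ : ℕ → E n → ℝ} (h : MinSeq Ω u φ) :
    Tendsto (fun k => ∫ x, φ k x ^ 2) atTop (𝓝 (∫ x, u x ^ 2)) := by
  have := h.tendsto_weight (w := fun _ => 1) (W := 1) zero_le_one continuous_const (by simp)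
  simpa using this

theorem MinSeq.q_tendsto {u : E n → ℝ} {φ : ℕ → E n → ℝ} (h : MinSeq Ω u φ) :
    Tendsto (fun k => q (lam1 Ω) (φ k) (φ k)) atTop (𝓝 0) := by
  have e : ∀ k, q (lam1 Ω) (φ k) (φ k) = (∫ x, ‖gradient (φ k) x‖ ^ 2) - lam1 Ω * ∫ x, φ k x ^ 2 := by
    intro k
    unfold q
    congr 1
    · congr 1; ext x; rw [real_inner_self_eq_norm_sq]
    · congr 2; ext x; ring
  simp_rw [e]
  have := h.energy.sub (h.tendsto_sq.const_mul (lam1 Ω))
  simpa using this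

theorem q_mul_bound {B B' : ℝ} (h : IsTest Ω φ) (hη : ContDiff ℝ (⊤ : ℕ∞) η)
    (hB : ∀ x, |η x| ≤ B) (hB' : ∀ x, ‖gradient η x‖ ≤ B') :
    q (lam1 Ω) (fun x => η x * φ x) (fun x => η x * φ x) ≤
      2 * B ^ 2 * (∫ x, ‖gradient φ x‖ ^ 2) + 2 * B' ^ 2 * ∫ x, φ x ^ 2 := by
  have hm := h.mul hη
  have hηd : Differentiable ℝ η := hη.differentiable (by simp)
  have e1 : q (lam1 Ω) (fun x => η x * φ x) (fun x => η x * φ x) ≤
      ∫ x, ‖gradient (fun x => η x * φ x) x‖ ^ 2 := by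
    unfold q
    have a1 : (∫ x, inner ℝ (gradient (fun x => η x * φ x) x) (gradient (fun x => η x * φ x) x)) =
        ∫ x, ‖gradient (fun x => η x * φ x) x‖ ^ 2 := by
      congr 1; ext x; rw [real_inner_self_eq_norm_sq]
    have a2 : 0 ≤ ∫ x, (η x * φ x) * (η x * φ x) :=
      integral_nonneg fun x => mul_self_nonneg _
    have a3 := mul_nonneg (lam_nonneg Ω) a2
    rw [a1]; linarith
  refine e1.trans ?_
  have i1 := h.int_gradsq.const_mul (2 * B ^ 2)
  have i2 := h.int_sq.const_mul (2 * B' ^ 2)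
  rw [← integral_const_mul, ← integral_const_mul, ← integral_add i1 i2]
  refine integral_mono hm.int_gradsq (i1.add i2) fun x => ?_
  simp only
  rw [gradient_mul' hηd h.diff]
  have b1 : ‖η x • gradient φ x + φ x • gradient η x‖ ≤ |η x| * ‖gradient φ x‖ +
      |φ x| * ‖gradient η x‖ := by
    refine (norm_add_le _ _).trans ?_
    rw [norm_smul, norm_smul, Real.norm_eq_abs, Real.norm_eq_abs]
  have b2 : (|η x| * ‖gradient φ x‖) ^ 2 ≤ B ^ 2 * ‖gradient φ x‖ ^ 2 := by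
    rw [mul_pow]
    exact mul_le_mul_of_nonneg_right (pow_le_pow_left₀ (abs_nonneg _) (hB x) 2) (by positivity)
  have b3 : (|φ x| * ‖gradient η x‖) ^ 2 ≤ B' ^ 2 * φ x ^ 2 := by
    rw [mul_pow, sq_abs, mul_comm]
    exact mul_le_mul_of_nonneg_right (pow_le_pow_left₀ (norm_nonneg _) (hB' x) 2) (by positivity)
  have b4 : ‖η x • gradient φ x + φ x • gradient η x‖ ^ 2 ≤
      (|η x| * ‖gradient φ x‖ + |φ x| * ‖gradient η x‖) ^ 2 :=
    pow_le_pow_left₀ (norm_nonneg _) b1 2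
  have b5 : (|η x| * ‖gradient φ x‖ + |φ x| * ‖gradient η x‖) ^ 2 ≤
      2 * (|η x| * ‖gradient φ x‖) ^ 2 + 2 * (|φ x| * ‖gradient η x‖) ^ 2 := by
    nlinarith [sq_nonneg (|η x| * ‖gradient φ x‖ - |φ x| * ‖gradient η x‖)]
  linarith

/-- the weighted inequality for limits of minimising sequences -/
theorem MinSeq.weighted {u : E n → ℝ} {φ : ℕ → E n → ℝ} {B B' B'' Λ : ℝ} (h : MinSeq Ω u φ)
    (hη : ContDiff ℝ (⊤ : ℕ∞) η)
    (hB : ∀ x, |η x| ≤ B) (hB' : ∀ x, ‖gradient η x‖ ≤ B') (hB'' : ∀ x, |lapl η x| ≤ B'')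
    (hΛ : ∀ ψ, IsTest Ω ψ → Λ * (∫ x, η x * ψ x ^ 2) ≤ ∫ x, η x * ‖gradient ψ x‖ ^ 2) :
    0 ≤ ∫ x, u x ^ 2 * (1 / 2 * lapl η x + (lam1 Ω - Λ) * η x) := by
  have hl : Continuous (lapl η) := by
    unfold lapl
    refine continuous_finsetSum _ fun i _ => ?_
    exact (((contDiff_dir (k := 1) hη (ee i)).continuous_fderiv (by simp))).clm_apply continuous_const
  have hwc : Continuous (fun x => 1 / 2 * lapl η x + (lam1 Ω - Λ) * η x) := by
    have := hη.continuous
    fun_prop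
  have hB0 : 0 ≤ B := (abs_nonneg _).trans (hB 0)
  have hB0'' : 0 ≤ B'' := (abs_nonneg _).trans (hB'' 0)
  have hwb : ∀ x, |1 / 2 * lapl η x + (lam1 Ω - Λ) * η x| ≤ B'' + |lam1 Ω - Λ| * B := by
    intro x
    refine (abs_add_le _ _).trans (add_le_add ?_ ?_)
    · rw [abs_mul]
      have := hB'' x
      have h2 : |(1 / 2 : ℝ)| = 1 / 2 := abs_of_pos (by norm_num)
      rw [h2]; linarith [abs_nonneg (lapl η x)]
    · rw [abs_mul]
      exact mul_le_mul_of_nonneg_left (hB x) (abs_nonneg _)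
  have lim1 := h.tendsto_weight (W := B'' + |lam1 Ω - Λ| * B) (by positivity) hwc hwb
  -- the cross term tends to zero
  have lim2 : Tendsto (fun k => q (lam1 Ω) (φ k) (fun x => η x * φ k x)) atTop (𝓝 0) := by
    have a1 : Tendsto (fun k => q (lam1 Ω) (φ k) (φ k) *
        (2 * B ^ 2 * (∫ x, ‖gradient (φ k) x‖ ^ 2) + 2 * B' ^ 2 * ∫ x, φ k x ^ 2)) atTop (𝓝 0) := by
      have := h.q_tendsto.mul ((h.energy.const_mul (2 * B ^ 2)).add
        (h.tendsto_sq.const_mul (2 * B' ^ 2)))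
      simpa using this
    have a2 : Tendsto (fun k => q (lam1 Ω) (φ k) (fun x => η x * φ k x) ^ 2) atTop (𝓝 0) := by
      refine squeeze_zero (fun k => sq_nonneg _) (fun k => ?_) a1
      refine (q_cs (h.test k) ((h.test k).mul hη)).trans ?_
      exact mul_le_mul_of_nonneg_left (q_mul_bound (h.test k) hη hB hB') (q_nonneg (h.test k))
    have a3 := a2.sqrt
    simp only [Real.sqrt_sq_eq_abs, Real.sqrt_zero] at a3
    exact tendsto_zero_iff_abs_tendsto_zero _ |>.2 a3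
  have lim3 := lim1.add lim2
  rw [add_zero] at lim3
  refine ge_of_tendsto' lim3 fun k => ?_
  have hk := h.test k
  have e1 := q_weight (lam1 Ω) hk hη
  have e2 := hΛ _ hk
  have cs : HasCompactSupport (fun x => φ k x ^ 2) :=
    hk.2.1.comp_left (g := fun t : ℝ => t ^ 2) (by simp)
  have i1 : Integrable (fun x => φ k x ^ 2 * (1 / 2 * lapl η x + lam1 Ω * η x)) := by
    refine Continuous.integrable_of_hasCompactSupport ((hk.cont.pow 2).mul ?_) cs.mul_right
    have := hη.continuous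
    fun_prop
  have i2 : Integrable (fun x => Λ * (η x * φ k x ^ 2)) := by
    refine (Continuous.integrable_of_hasCompactSupport (hη.continuous.mul (hk.cont.pow 2))
      cs.mul_left).const_mul _
  have e3 : (∫ x, φ k x ^ 2 * (1 / 2 * lapl η x + (lam1 Ω - Λ) * η x)) =
      (∫ x, φ k x ^ 2 * (1 / 2 * lapl η x + lam1 Ω * η x)) - Λ * ∫ x, η x * φ k x ^ 2 := by
    rw [← integral_const_mul, ← integral_sub i1 i2]
    congr 1; ext x; ring
  rw [e3]
  linarith

end Pool.Agent.Y288.SN
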