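import Pool.Agent.Y288.SN.Limit

set_option autoImplicit false

open MeasureTheory Set Metric Filter Topology

namespace Pool.Agent.Y288.SN

variable {n : ℕ} {Ω : Set (E n)} {φ ψ η g : E n → ℝ}

/-! ### functions of one linear coordinate -/

theorem hasFDerivAt_lin {F F' : ℝ → ℝ} (hF : ∀ s, HasDerivAt F (F' s) s) (e x : E n) :
    HasFDerivAt (fun y : E n => F (inner ℝ e y)) (F' (inner ℝ e x) • innerSL ℝ e) x := by
  have h1 : HasFDerivAt (fun y : E n => inner ℝ e y) (innerSL ℝ e) x :=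
    (innerSL ℝ e).hasFDerivAt
  exact (hF _).comp_hasFDerivAt x h1

theorem fderiv_lin {F F' : ℝ → ℝ} (hF : ∀ s, HasDerivAt F (F' s) s) (e x v : E n) :
    fderiv ℝ (fun y : E n => F (inner ℝ e y)) x v = F' (inner ℝ e x) * inner ℝ e v := by
  rw [(hasFDerivAt_lin hF e x).fderiv]
  simp

theorem norm_gradient_lin {F F' : ℝ → ℝ} (hF : ∀ s, HasDerivAt F (F' s) s) (e x : E n)
    (he : ‖e‖ = 1) : ‖gradient (fun y : E n => F (inner ℝ e y)) x‖ = |F' (inner ℝ e x)| := by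
  rw [norm_grad, (hasFDerivAt_lin hF e x).fderiv, norm_smul, innerSL_apply_norm, he, mul_one,
    Real.norm_eq_abs]

theorem lapl_lin {F F' F'' : ℝ → ℝ} (hF : ∀ s, HasDerivAt F (F' s) s)
    (hF' : ∀ s, HasDerivAt F' (F'' s) s) (e x : E n) (he : ‖e‖ = 1) :
    lapl (fun y : E n => F (inner ℝ e y)) x = F'' (inner ℝ e x) := by
  unfold lapl
  have e1 : ∀ i : Fin n, fderiv ℝ (fun y => fderiv ℝ (fun y : E n => F (inner ℝ e y)) y (ee i)) x
      (ee i) = F'' (inner ℝ e x) * (inner ℝ e (ee i) * inner ℝ e (ee i)) := by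
    intro i
    have : (fun y => fderiv ℝ (fun y : E n => F (inner ℝ e y)) y (ee i)) =
        fun y => F' (inner ℝ e y) * inner ℝ e (ee i) := by
      ext y; exact fderiv_lin hF e y (ee i)
    rw [this]
    have h2 := (hasFDerivAt_lin hF' e x).mul_const (inner ℝ e (ee i))
    rw [h2.fderiv]
    simp
    ring
  simp_rw [e1]
  rw [← Finset.mul_sum, ← inner_eq_sum, real_inner_self_eq_norm_sq, he]
  ring

/-! ### the slab weight -/

noncomputable def rr (ρ s : ℝ) : ℝ := Real.sqrt (s ^ 2 + ρ ^ 2)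

noncomputable def FF (ρ L s : ℝ) : ℝ := Real.exp (-(rr ρ s / L))

noncomputable def FF' (ρ L s : ℝ) : ℝ := FF ρ L s * (-(s / rr ρ s / L))

noncomputable def FF'' (ρ L s : ℝ) : ℝ :=
  FF ρ L s * ((s / rr ρ s / L) ^ 2 - (1 / rr ρ s - s ^ 2 / rr ρ s ^ 3) / L)

variable {ρ L : ℝ}

theorem rr_pos (hρ : 0 < ρ) (s : ℝ) : 0 < rr ρ s := Real.sqrt_pos.2 (by positivity)

theorem rr_sq (ρ s : ℝ) : rr ρ s ^ 2 = s ^ 2 + ρ ^ 2 := Real.sq_sqrt (by positivity)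

theorem hasDerivAt_rr (hρ : 0 < ρ) (s : ℝ) : HasDerivAt (rr ρ) (s / rr ρ s) s := by
  have h1 : HasDerivAt (fun s : ℝ => s ^ 2 + ρ ^ 2) (2 * s) s := by
    simpa using (hasDerivAt_pow 2 s).add_const (ρ ^ 2)
  have h2 := h1.sqrt (by positivity)
  refine h2.congr_deriv ?_
  unfold rr
  rw [mul_div_mul_left _ _ two_ne_zero]

theorem hasDerivAt_FF (hρ : 0 < ρ) (L s : ℝ) : HasDerivAt (FF ρ L) (FF' ρ L s) s := by
  have := (((hasDerivAt_rr hρ s).div_const L).neg).exp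
  exact this

theorem hasDerivAt_FF' (hρ : 0 < ρ) (L s : ℝ) : HasDerivAt (FF' ρ L) (FF'' ρ L s) s := by
  have h0 := rr_pos hρ s
  have h1 : HasDerivAt (fun s => s / rr ρ s) (1 / rr ρ s - s ^ 2 / rr ρ s ^ 3) s := by
    have := (hasDerivAt_id s).div (hasDerivAt_rr hρ s) h0.ne'
    refine this.congr_deriv ?_
    simp only [id]
    field_simp
  have h2 : HasDerivAt (fun s => -(s / rr ρ s / L)) (-((1 / rr ρ s - s ^ 2 / rr ρ s ^ 3) / L)) s :=
    (h1.div_const L).neg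
  have h3 : HasDerivAt (fun s => FF ρ L s * -(s / rr ρ s / L))
      (FF' ρ L s * -(s / rr ρ s / L) + FF ρ L s * -((1 / rr ρ s - s ^ 2 / rr ρ s ^ 3) / L)) s :=
    (hasDerivAt_FF hρ L s).mul h2
  refine HasDerivAt.congr_deriv h3 ?_
  unfold FF'' FF'
  ring

theorem contDiff_FF (hρ : 0 < ρ) (L : ℝ) : ContDiff ℝ (⊤ : ℕ∞) (FF ρ L) := by
  unfold FF
  have : ContDiff ℝ (⊤ : ℕ∞) (rr ρ) := by
    unfold rr
    refine ContDiff.sqrt (by fun_prop) fun s => by positivity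
  exact ((this.div_const L).neg).exp

theorem FF_pos (ρ L s : ℝ) : 0 < FF ρ L s := Real.exp_pos _

theorem FF_le (hρ : 0 < ρ) (hL : 0 < L) (s : ℝ) : FF ρ L s ≤ 1 := by
  unfold FF
  have := rr_pos hρ s
  rw [Real.exp_le_one_iff]
  have : 0 < rr ρ s / L := by positivity
  linarith

theorem abs_ratio (hρ : 0 < ρ) (s : ℝ) : |s / rr ρ s| ≤ 1 := by
  have h0 := rr_pos hρ s
  rw [abs_div, abs_of_pos h0, div_le_one h0]
  refine abs_le_of_sq_le_sq ?_ h0.le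
  rw [rr_sq]; nlinarith

theorem curv_eq (hρ : 0 < ρ) (s : ℝ) : 1 / rr ρ s - s ^ 2 / rr ρ s ^ 3 = ρ ^ 2 / rr ρ s ^ 3 := by
  have h0 := rr_pos hρ s
  have h1 := rr_sq ρ s
  rw [div_sub_div _ _ h0.ne' (by positivity), div_eq_div_iff (by positivity) (by positivity)]
  have : rr ρ s ^ 3 = rr ρ s * (s ^ 2 + ρ ^ 2) := by rw [← h1]; ring
  rw [this]; ring

theorem FF'_bound (hρ : 0 < ρ) (hL : 0 < L) (s : ℝ) : |FF' ρ L s| ≤ 1 / L := by
  unfold FF'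
  rw [abs_mul, abs_neg, abs_div, abs_of_pos (FF_pos ρ L s), abs_of_pos hL]
  calc FF ρ L s * (|s / rr ρ s| / L) ≤ 1 * (1 / L) := by
        refine mul_le_mul (FF_le hρ hL s) ?_ (by positivity) zero_le_one
        exact div_le_div_of_nonneg_right (abs_ratio hρ s) hL.le
    _ = _ := one_mul _

theorem rr_ge (hρ : 0 < ρ) (s : ℝ) : ρ ≤ rr ρ s := by
  unfold rr
  exact Real.le_sqrt_of_sq_le (by nlinarith)

theorem FF''_bound (hρ : 0 < ρ) (hL : 0 < L) (s : ℝ) : |FF'' ρ L s| ≤ 1 / L ^ 2 + 1 / (ρ * L) := by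
  unfold FF''
  have h0 := rr_pos hρ s
  rw [abs_mul, abs_of_pos (FF_pos ρ L s), curv_eq hρ]
  have h1 : (s / rr ρ s / L) ^ 2 ≤ 1 / L ^ 2 := by
    rw [div_pow (s / rr ρ s)]
    refine div_le_div_of_nonneg_right ?_ (by positivity)
    have := abs_ratio hρ s
    rw [← sq_abs]; nlinarith [abs_nonneg (s / rr ρ s)]
  have h2 : ρ ^ 2 / rr ρ s ^ 3 / L ≤ 1 / (ρ * L) := by
    rw [div_div, div_le_div_iff₀ (by positivity) (by positivity)]
    have h3 := rr_ge hρ s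
    have h4 : ρ ^ 3 ≤ rr ρ s ^ 3 := pow_le_pow_left₀ hρ.le h3 3
    nlinarith
  have h5 : |(s / rr ρ s / L) ^ 2 - ρ ^ 2 / rr ρ s ^ 3 / L| ≤ 1 / L ^ 2 + 1 / (ρ * L) := by
    refine (abs_sub _ _).trans ?_
    rw [abs_of_nonneg (sq_nonneg _), abs_of_nonneg (by positivity)]
    exact add_le_add h1 h2
  calc FF ρ L s * |(s / rr ρ s / L) ^ 2 - ρ ^ 2 / rr ρ s ^ 3 / L| ≤ 1 * (1 / L ^ 2 + 1 / (ρ * L)) :=
        mul_le_mul (FF_le hρ hL s) h5 (abs_nonneg _) zero_le_one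
    _ = _ := one_mul _

/-- the key differential inequality of the weight -/
theorem FF''_le (hρ : 0 < ρ) (hL : 0 < L) (s : ℝ) :
    FF'' ρ L s ≤ 1 / L ^ 2 - 1 / L * (ρ ^ 2 / rr ρ s ^ 3 * FF ρ L s) := by
  unfold FF''
  rw [curv_eq hρ]
  have h1 : (s / rr ρ s / L) ^ 2 ≤ 1 / L ^ 2 := by
    rw [div_pow (s / rr ρ s)]
    refine div_le_div_of_nonneg_right ?_ (by positivity)
    have := abs_ratio hρ s
    rw [← sq_abs]; nlinarith [abs_nonneg (s / rr ρ s)]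
  have h2 : FF ρ L s * (s / rr ρ s / L) ^ 2 ≤ 1 * (1 / L ^ 2) :=
    mul_le_mul (FF_le hρ hL s) h1 (sq_nonneg _) zero_le_one
  have e : FF ρ L s * ((s / rr ρ s / L) ^ 2 - ρ ^ 2 / rr ρ s ^ 3 / L) =
      FF ρ L s * (s / rr ρ s / L) ^ 2 - 1 / L * (ρ ^ 2 / rr ρ s ^ 3 * FF ρ L s) := by ring
  rw [e]; linarith

/-- an absolute constant -/
noncomputable def c0 : ℝ := Real.exp (-(128 + 1 / 8)) / 128

theorem c0_pos : 0 < c0 := by unfold c0; positivity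

theorem gauss_le (hρ : 0 < ρ) (hL : ρ / 8 ≤ L) (s : ℝ) :
    c0 * (1 / ρ * Real.exp (-(s ^ 2 / (4 * ρ ^ 2)))) ≤ ρ ^ 2 / rr ρ s ^ 3 * FF ρ L s := by
  have hL0 : 0 < L := by linarith
  have h0 := rr_pos hρ s
  set σ : ℝ := (s / ρ) ^ 2 with hσ
  have hσ0 : 0 ≤ σ := sq_nonneg _
  have hs2 : s ^ 2 = ρ ^ 2 * σ := by rw [hσ]; field_simp
  have hr2 : rr ρ s ^ 2 = ρ ^ 2 * (1 + σ) := by rw [rr_sq, hs2]; ring
  -- first factor
  have hrρ := rr_ge hρ s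
  have hr3 : rr ρ s ^ 3 ≤ ρ ^ 3 * (1 + σ) ^ 2 := by
    have h1 : rr ρ s ≤ ρ * (1 + σ) := by
      refine abs_le_of_sq_le_sq' ?_ (by positivity) |>.2
      rw [hr2]; nlinarith [mul_nonneg (sq_nonneg ρ) hσ0, mul_nonneg (sq_nonneg ρ) (mul_nonneg hσ0 hσ0)]
    calc rr ρ s ^ 3 = rr ρ s ^ 2 * rr ρ s := by ring
      _ ≤ (ρ ^ 2 * (1 + σ)) * (ρ * (1 + σ)) := by
          rw [hr2]
          exact mul_le_mul_of_nonneg_left h1 (by positivity)
      _ = _ := by ring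
  have hexp8 : (1 + σ) ^ 2 ≤ 128 * Real.exp (σ / 8) := by
    have h1 : 1 + σ / 8 + (σ / 8) ^ 2 / 2 ≤ Real.exp (σ / 8) :=
      Real.quadratic_le_exp_of_nonneg (by positivity)
    nlinarith
  have f1 : 1 / ρ * (Real.exp (-(σ / 8)) / 128) ≤ ρ ^ 2 / rr ρ s ^ 3 := by
    rw [le_div_iff₀ (by positivity)]
    have h2 : Real.exp (-(σ / 8)) * Real.exp (σ / 8) = 1 := by rw [← Real.exp_add]; simp
    have h3 : (Real.exp (-(σ / 8)) / 128) * (1 + σ) ^ 2 ≤ 1 := by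
      calc (Real.exp (-(σ / 8)) / 128) * (1 + σ) ^ 2
          ≤ (Real.exp (-(σ / 8)) / 128) * (128 * Real.exp (σ / 8)) :=
            mul_le_mul_of_nonneg_left hexp8 (by positivity)
        _ = Real.exp (-(σ / 8)) * Real.exp (σ / 8) := by ring
        _ = 1 := h2
    calc 1 / ρ * (Real.exp (-(σ / 8)) / 128) * rr ρ s ^ 3
        ≤ 1 / ρ * (Real.exp (-(σ / 8)) / 128) * (ρ ^ 3 * (1 + σ) ^ 2) :=
          mul_le_mul_of_nonneg_left hr3 (by positivity)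
      _ = ρ ^ 2 * ((Real.exp (-(σ / 8)) / 128) * (1 + σ) ^ 2) := by field_simp
      _ ≤ ρ ^ 2 * 1 := mul_le_mul_of_nonneg_left h3 (by positivity)
      _ = ρ ^ 2 := mul_one _
  -- second factor
  have f2 : Real.exp (-(128 + (1 + σ) / 8)) ≤ FF ρ L s := by
    unfold FF
    refine Real.exp_le_exp.2 ?_
    have h1 : rr ρ s / L ≤ 8 * (rr ρ s / ρ) := by
      rw [div_le_iff₀ hL0]
      have : rr ρ s = 8 * (rr ρ s / ρ) * (ρ / 8) := by field_simp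
      calc rr ρ s = 8 * (rr ρ s / ρ) * (ρ / 8) := this
        _ ≤ 8 * (rr ρ s / ρ) * L := mul_le_mul_of_nonneg_left hL (by positivity)
    have h2 : (rr ρ s / ρ) ^ 2 = 1 + σ := by rw [div_pow, hr2]; field_simp
    nlinarith [sq_nonneg (rr ρ s / ρ - 32)]
  have hfin : c0 * (1 / ρ * Real.exp (-(s ^ 2 / (4 * ρ ^ 2)))) =
      (1 / ρ * (Real.exp (-(σ / 8)) / 128)) * Real.exp (-(128 + (1 + σ) / 8)) := by
    unfold c0
    have e1 : s ^ 2 / (4 * ρ ^ 2) = σ / 4 := by rw [hs2]; field_simp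
    rw [e1]
    have e2 : Real.exp (-(128 + 1 / 8)) * Real.exp (-(σ / 4)) =
        Real.exp (-(σ / 8)) * Real.exp (-(128 + (1 + σ) / 8)) := by
      rw [← Real.exp_add, ← Real.exp_add]
      congr 1; ring
    calc Real.exp (-(128 + 1 / 8)) / 128 * (1 / ρ * Real.exp (-(σ / 4)))
        = (1 / ρ) / 128 * (Real.exp (-(128 + 1 / 8)) * Real.exp (-(σ / 4))) := by ring
      _ = _ := by rw [e2]; ring
  rw [hfin]
  exact mul_le_mul f1 f2 (Real.exp_pos _).le (by positivity)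

end Pool.Agent.Y288.SN
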