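import Pool.Agent.Y288.SN.Slab

set_option autoImplicit false

open MeasureTheory Set Metric Filter Topology

namespace Pool.Agent.Y288.SN

variable {n : ℕ} {Ω : Set (E n)} {φ ψ η g : E n → ℝ}

/-- the energy of the derivatives in the directions orthogonal to `e` -/
noncomputable def degE (e : E n) (φ : E n → ℝ) : ℝ :=
  ∫ x, (‖gradient φ x‖ ^ 2 - inner ℝ (gradient φ x) e ^ 2)

/-- the lowest Rayleigh quotient of the degenerate energy -/
noncomputable def lamDeg (Ω : Set (E n)) (e : E n) : ℝ :=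
  sInf {r : ℝ | ∃ φ, IsTest Ω φ ∧ φ ≠ 0 ∧ r = degE e φ / ∫ x, φ x ^ 2}

theorem deg_nonneg {e : E n} (he : ‖e‖ = 1) (a : E n) : 0 ≤ ‖a‖ ^ 2 - inner ℝ a e ^ 2 := by
  have := abs_real_inner_le_norm a e
  rw [he, mul_one] at this
  have h2 := pow_le_pow_left₀ (abs_nonneg _) this 2
  rw [sq_abs] at h2
  linarith

theorem degE_nonneg {e : E n} (he : ‖e‖ = 1) (φ : E n → ℝ) : 0 ≤ degE e φ :=
  integral_nonneg fun _ => deg_nonneg he _

theorem lamDeg_bdd {e : E n} (he : ‖e‖ = 1) (Ω : Set (E n)) :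
    BddBelow {r : ℝ | ∃ φ, IsTest Ω φ ∧ φ ≠ 0 ∧ r = degE e φ / ∫ x, φ x ^ 2} := by
  refine ⟨0, ?_⟩
  rintro r ⟨φ, -, -, rfl⟩
  exact div_nonneg (degE_nonneg he φ) (integral_nonneg fun x => by positivity)

theorem lamDeg_le {e : E n} (he : ‖e‖ = 1) (h : IsTest Ω φ) :
    lamDeg Ω e * ∫ x, φ x ^ 2 ≤ degE e φ := by
  by_cases h0 : φ = 0
  · subst h0
    simp only [Pi.zero_apply, ne_eq, OfNat.ofNat_ne_zero, not_false_eq_true, zero_pow,
      integral_zero, mul_zero]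
    exact degE_nonneg he _
  · have h1 := csInf_le (lamDeg_bdd he Ω) ⟨φ, h, h0, rfl⟩
    rwa [le_div_iff₀ (h.pos_of_ne h0)] at h1

theorem IsTest.int_deg (h : IsTest Ω φ) (e : E n) :
    Integrable (fun x => ‖gradient φ x‖ ^ 2 - inner ℝ (gradient φ x) e ^ 2) := by
  refine h.int_gradsq.sub ?_
  refine Continuous.integrable_of_hasCompactSupport ((h.contGrad.inner continuous_const).pow 2) ?_
  exact h.grad_support.comp_left (g := fun t : E n => inner ℝ t e ^ 2) (by simp)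

/-- the degenerate inequality with a weight depending on `⟨e, x⟩` -/
theorem deg_weight {e : E n} (he : ‖e‖ = 1) {G G' : ℝ → ℝ} (hG : ∀ s, HasDerivAt G (G' s) s)
    (hGs : ContDiff ℝ (⊤ : ℕ∞) G) (h : IsTest Ω ψ) :
    lamDeg Ω e * (∫ x, G (inner ℝ e x) ^ 2 * ψ x ^ 2) ≤
      ∫ x, G (inner ℝ e x) ^ 2 * ‖gradient ψ x‖ ^ 2 := by
  have hζ : ContDiff ℝ (⊤ : ℕ∞) (fun x : E n => G (inner ℝ e x)) :=
    hGs.comp (contDiff_const.inner ℝ contDiff_id)
  have hζd : Differentiable ℝ (fun x : E n => G (inner ℝ e x)) := hζ.differentiable (by simp)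
  have hm : IsTest Ω (fun x => G (inner ℝ e x) * ψ x) := h.mul hζ
  have h1 := lamDeg_le he hm
  have e1 : (∫ x, (G (inner ℝ e x) * ψ x) ^ 2) = ∫ x, G (inner ℝ e x) ^ 2 * ψ x ^ 2 := by
    congr 1; ext x; ring
  rw [e1] at h1
  refine h1.trans ?_
  unfold degE
  refine integral_mono (hm.int_deg e) ?_ fun x => ?_
  · refine Continuous.integrable_of_hasCompactSupport ((hζ.continuous.pow 2).mul
      (h.contGrad.norm.pow 2)) ?_
    exact (h.grad_support.comp_left (g := fun t : E n => ‖t‖ ^ 2) (by simp)).mul_left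
  · simp only
    have e2 : gradient (fun x : E n => G (inner ℝ e x)) x = G' (inner ℝ e x) • e := by
      unfold gradient
      rw [(hasFDerivAt_lin hG e x).fderiv, map_smulₛₗ]
      simp only [conj_trivial]
      congr 1
      exact (InnerProductSpace.toDual ℝ (E n)).symm_apply_eq.2 rfl
    rw [gradient_mul' hζd h.diff, e2]
    set a := gradient ψ x
    set t := G (inner ℝ e x)
    set s := G' (inner ℝ e x)
    have e3 : ‖t • a + ψ x • s • e‖ ^ 2 = t ^ 2 * ‖a‖ ^ 2 + 2 * (t * ψ x * s) * inner ℝ a e +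
        (ψ x * s) ^ 2 := by
      rw [norm_add_sq_real, norm_smul, norm_smul, norm_smul, he, inner_smul_left,
        inner_smul_right, inner_smul_right]
      simp only [Real.norm_eq_abs, conj_trivial, mul_pow, sq_abs]
      ring
    have e4 : inner ℝ (t • a + ψ x • s • e) e = t * inner ℝ a e + ψ x * s := by
      rw [inner_add_left, inner_smul_left, inner_smul_left, inner_smul_left,
        real_inner_self_eq_norm_sq, he]
      simp
    rw [e3, e4]
    have := sq_nonneg (t * inner ℝ a e)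
    nlinarith

theorem FF_sq (ρ L s : ℝ) : FF ρ (2 * L) s ^ 2 = FF ρ L s := by
  unfold FF
  rw [sq, ← Real.exp_add]
  congr 1
  by_cases hL : L = 0
  · subst hL; simp
  · field_simp
    ring

theorem slab_bound {u : E n → ℝ} {φ : ℕ → E n → ℝ} (h : MinSeq Ω u φ) {e : E n} (he : ‖e‖ = 1)
    {ρ L K : ℝ} (hρ : 0 < ρ) (hL : ρ / 8 ≤ L) (hK : lam1 Ω - lamDeg Ω e ≤ K / L ^ 2) (hK0 : 0 ≤ K)
    (c : ℝ) :
    c0 * (∫ x, u x ^ 2 * (1 / ρ * Real.exp (-((inner ℝ e x - c) ^ 2 / (4 * ρ ^ 2))))) ≤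
      (1 + 2 * K) / L * ∫ x, u x ^ 2 := by
  have hL0 : 0 < L := by linarith
  have d1 : ∀ L', ∀ s, HasDerivAt (fun s => FF ρ L' (s - c)) (FF' ρ L' (s - c)) s := by
    intro L' s
    exact (hasDerivAt_FF hρ L' (s - c)).comp_sub_const s c
  have d2 : ∀ s, HasDerivAt (fun s => FF' ρ L (s - c)) (FF'' ρ L (s - c)) s := by
    intro s
    exact (hasDerivAt_FF' hρ L (s - c)).comp_sub_const s c
  have sm : ∀ L', ContDiff ℝ (⊤ : ℕ∞) (fun s => FF ρ L' (s - c)) := by
    intro L'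
    exact (contDiff_FF hρ L').comp (contDiff_id.sub contDiff_const)
  set η : E n → ℝ := fun x => FF ρ L (inner ℝ e x - c) with hη
  have hηs : ContDiff ℝ (⊤ : ℕ∞) η := (sm L).comp (contDiff_const.inner ℝ contDiff_id)
  have hlap : ∀ x, lapl η x = FF'' ρ L (inner ℝ e x - c) := fun x =>
    lapl_lin (F := fun s => FF ρ L (s - c)) (F' := fun s => FF' ρ L (s - c))
      (F'' := fun s => FF'' ρ L (s - c)) (d1 L) d2 e x he
  have hgr : ∀ x, ‖gradient η x‖ ≤ 1 / L := by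
    intro x
    rw [norm_gradient_lin (F := fun s => FF ρ L (s - c)) (F' := fun s => FF' ρ L (s - c))
      (d1 L) e x he]
    exact FF'_bound hρ hL0 _
  have hw := h.weighted (B := 1) (B' := 1 / L) (B'' := 1 / L ^ 2 + 1 / (ρ * L)) (Λ := lamDeg Ω e)
    hηs (fun x => by
      rw [abs_of_pos (FF_pos _ _ _)]; exact FF_le hρ hL0 _) hgr (fun x => by
      rw [hlap]; exact FF''_bound hρ hL0 _) (fun ψ hψ => by
      have := deg_weight he (G := fun s => FF ρ (2 * L) (s - c))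
        (G' := fun s => FF' ρ (2 * L) (s - c)) (d1 (2 * L)) (sm (2 * L)) hψ
      simp only [FF_sq] at this
      exact this)
  -- compare
  have iu := memLp_sq_int h.memu
  have bm : ∀ {w : E n → ℝ} {W : ℝ}, Continuous w → (∀ x, |w x| ≤ W) →
      Integrable (fun x => u x ^ 2 * w x) := by
    intro w W hw hwb
    refine iu.mul_bdd (c := W) hw.aestronglyMeasurable (Eventually.of_forall fun x => ?_)
    rw [Real.norm_eq_abs]; exact hwb x
  have hgc : Continuous (fun x : E n => 1 / ρ * Real.exp (-((inner ℝ e x - c) ^ 2 / (4 * ρ ^ 2)))) := by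
    fun_prop
  have i1 : Integrable (fun x => u x ^ 2 * (1 / ρ * Real.exp (-((inner ℝ e x - c) ^ 2 / (4 * ρ ^ 2))))) := by
    refine bm (W := 1 / ρ) hgc fun x => ?_
    rw [abs_of_pos (by positivity)]
    have : Real.exp (-((inner ℝ e x - c) ^ 2 / (4 * ρ ^ 2))) ≤ 1 := by
      rw [Real.exp_le_one_iff]
      have : 0 ≤ (inner ℝ e x - c) ^ 2 / (4 * ρ ^ 2) := by positivity
      linarith
    have h2 : 0 < 1 / ρ := by positivity
    nlinarith
  have hlc : Continuous (lapl η) := by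
    unfold lapl
    refine continuous_finsetSum _ fun i _ => ?_
    exact (((contDiff_dir (k := 1) hηs (ee i)).continuous_fderiv (by simp))).clm_apply
      continuous_const
  have i2 : Integrable (fun x => u x ^ 2 *
      (1 / 2 * lapl η x + (lam1 Ω - lamDeg Ω e) * η x)) := by
    refine bm (W := 1 / L ^ 2 + 1 / (ρ * L) + |lam1 Ω - lamDeg Ω e|) ?_ fun x => ?_
    · have := hηs.continuous
      fun_prop
    · refine (abs_add_le _ _).trans (add_le_add ?_ ?_)
      · rw [abs_mul, abs_of_pos (by norm_num : (0 : ℝ) < 1 / 2), hlap]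
        have := FF''_bound hρ hL0 (inner ℝ e x - c)
        linarith [abs_nonneg (FF'' ρ L (inner ℝ e x - c))]
      · rw [abs_mul]
        have h1 : |η x| ≤ 1 := by
          rw [abs_of_pos (FF_pos _ _ _)]; exact FF_le hρ hL0 _
        calc _ ≤ |lam1 Ω - lamDeg Ω e| * 1 := mul_le_mul_of_nonneg_left h1 (abs_nonneg _)
          _ = _ := mul_one _
  have hpt : ∀ x, u x ^ 2 * (1 / 2 * lapl η x + (lam1 Ω - lamDeg Ω e) * η x) +
      1 / (2 * L) * (c0 * (u x ^ 2 * (1 / ρ * Real.exp (-((inner ℝ e x - c) ^ 2 / (4 * ρ ^ 2)))))) ≤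
      (1 / (2 * L ^ 2) + K / L ^ 2) * u x ^ 2 := by
    intro x
    have h1 := FF''_le hρ hL0 (inner ℝ e x - c)
    have h2 := gauss_le hρ hL (inner ℝ e x - c)
    have h3 : (lam1 Ω - lamDeg Ω e) * η x ≤ K / L ^ 2 := by
      have h4 : 0 < η x := FF_pos _ _ _
      have h5 : η x ≤ 1 := FF_le hρ hL0 _
      calc (lam1 Ω - lamDeg Ω e) * η x ≤ K / L ^ 2 * η x := mul_le_mul_of_nonneg_right hK h4.le
        _ ≤ K / L ^ 2 * 1 := mul_le_mul_of_nonneg_left h5 (by positivity)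
        _ = _ := mul_one _
    have h6 : 1 / (2 * L) * (c0 * (1 / ρ * Real.exp (-((inner ℝ e x - c) ^ 2 / (4 * ρ ^ 2))))) ≤
        1 / (2 * L) * (ρ ^ 2 / rr ρ (inner ℝ e x - c) ^ 3 * FF ρ L (inner ℝ e x - c)) :=
      mul_le_mul_of_nonneg_left h2 (by positivity)
    have h7 : 1 / 2 * lapl η x ≤ 1 / (2 * L ^ 2) -
        1 / (2 * L) * (ρ ^ 2 / rr ρ (inner ℝ e x - c) ^ 3 * FF ρ L (inner ℝ e x - c)) := by
      rw [hlap]
      have e1 : 1 / (2 * L ^ 2) - 1 / (2 * L) * (ρ ^ 2 / rr ρ (inner ℝ e x - c) ^ 3 *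
          FF ρ L (inner ℝ e x - c)) = 1 / 2 * (1 / L ^ 2 - 1 / L * (ρ ^ 2 /
          rr ρ (inner ℝ e x - c) ^ 3 * FF ρ L (inner ℝ e x - c))) := by
        field_simp
      rw [e1]
      linarith
    have h8 : 1 / 2 * lapl η x + (lam1 Ω - lamDeg Ω e) * η x +
        1 / (2 * L) * (c0 * (1 / ρ * Real.exp (-((inner ℝ e x - c) ^ 2 / (4 * ρ ^ 2))))) ≤
        1 / (2 * L ^ 2) + K / L ^ 2 := by linarith
    have h9 := mul_le_mul_of_nonneg_left h8 (sq_nonneg (u x))
    nlinarith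
  have i3 := (i1.const_mul c0).const_mul (1 / (2 * L))
  have h10 := integral_mono (i2.add i3) (iu.const_mul (1 / (2 * L ^ 2) + K / L ^ 2)) hpt
  rw [integral_add' i2 i3, integral_const_mul, integral_const_mul, integral_const_mul] at h10
  have h11 : 1 / (2 * L) * (c0 * ∫ x, u x ^ 2 * (1 / ρ * Real.exp (-((inner ℝ e x - c) ^ 2 /
        (4 * ρ ^ 2))))) ≤ (1 / (2 * L ^ 2) + K / L ^ 2) * ∫ x, u x ^ 2 := by linarith
  have h12 := mul_le_mul_of_nonneg_left h11 (by positivity : (0 : ℝ) ≤ 2 * L)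
  have e13 : 2 * L * (1 / (2 * L) * (c0 * ∫ x, u x ^ 2 * (1 / ρ * Real.exp (-((inner ℝ e x - c) ^ 2 /
        (4 * ρ ^ 2)))))) = c0 * ∫ x, u x ^ 2 * (1 / ρ * Real.exp (-((inner ℝ e x - c) ^ 2 /
        (4 * ρ ^ 2)))) := by
    field_simp
  have e14 : 2 * L * ((1 / (2 * L ^ 2) + K / L ^ 2) * ∫ x, u x ^ 2) =
      (1 + 2 * K) / L * ∫ x, u x ^ 2 := by
    field_simp
  rw [e13, e14] at h12
  exact h12

end Pool.Agent.Y288.SN
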