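import Pool.Agent.Y288.SN.Fin

set_option autoImplicit false

open MeasureTheory Set Metric Filter Topology
open Pool.Agent.Y288.SN

namespace Pool.Agent.Y288.SN.SupNormBound

/-- Van den Berg's bound: in every dimension `n ≥ 2` there is a dimensional constant `C` such that,
for every nonempty bounded convex open set `Ω` with inradius `ρ` and diameter `D` and every first
Dirichlet eigenfunction `u` of `Ω`, `ρ^(n/2) ‖u‖_∞ ≤ C (ρ/D)^(1/6) ‖u‖_2`. -/
theorem result : ∀ n : ℕ, 2 ≤ n → ∃ C : ℝ, 0 < C ∧ ∀ Ω : Set (EuclideanSpace ℝ (Fin n)),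
    IsOpen Ω → Convex ℝ Ω → Bornology.IsBounded Ω → Ω.Nonempty →
    ∀ u : EuclideanSpace ℝ (Fin n) → ℝ, IsFirstEigenfunction Ω u →
      ENNReal.ofReal (inrad Ω ^ ((n : ℝ) / 2)) * eLpNorm u ⊤ (volume.restrict Ω) ≤
        ENNReal.ofReal (C * (inrad Ω / Metric.diam Ω) ^ (1 / 6 : ℝ)) *
          eLpNorm u 2 (volume.restrict Ω) := by
  intro n hn
  obtain ⟨d, rfl⟩ : ∃ d, n = d + 1 := ⟨n - 1, by omega⟩
  refine ⟨Real.sqrt (Mn (d + 1)), Real.sqrt_pos.2 (Mn_pos _), ?_⟩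
  intro Ω hΩ hconv hb hne u hu
  exact main hΩ hconv hb hne hu

end Pool.Agent.Y288.SN.SupNormBound
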