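import Pool.Agent.Y288.SN.Basic

set_option autoImplicit false

open MeasureTheory Set Metric Filter Topology

namespace Pool.Agent.Y288.SN

variable {n : ℕ} {Ω : Set (E n)} {φ ψ η g : E n → ℝ}

/-- standard basis -/
noncomputable def ee (i : Fin n) : E n := EuclideanSpace.single i 1

/-- the Laplacian -/
noncomputable def lapl (η : E n → ℝ) (x : E n) : ℝ :=
  ∑ i : Fin n, fderiv ℝ (fun y => fderiv ℝ η y (ee i)) x (ee i)

theorem inner_eq_sum (a b : E n) : inner ℝ a b = ∑ i, inner ℝ a (ee i) * inner ℝ b (ee i) := by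
  have h := (EuclideanSpace.basisFun (Fin n) ℝ).sum_inner_mul_inner a b
  rw [← h]
  refine Finset.sum_congr rfl fun i _ => ?_
  unfold ee
  rw [EuclideanSpace.basisFun_apply, real_inner_comm b]

theorem contDiff_dir {k : ℕ∞} (hη : ContDiff ℝ (⊤ : ℕ∞) η) (v : E n) :
    ContDiff ℝ k (fun y => fderiv ℝ η y v) := by
  have : ContDiff ℝ k (fderiv ℝ η) := hη.fderiv_right (by
    norm_cast
    exact le_top)
  exact this.clm_apply contDiff_const

theorem int_weight (h : IsTest Ω φ) (hη : ContDiff ℝ (⊤ : ℕ∞) η) :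
    ∫ x, φ x * inner ℝ (gradient φ x) (gradient η x) = -(1 / 2) * ∫ x, φ x ^ 2 * lapl η x := by
  have e1 : ∀ x, φ x * inner ℝ (gradient φ x) (gradient η x) =
      ∑ i, φ x * fderiv ℝ φ x (ee i) * fderiv ℝ η x (ee i) := by
    intro x
    rw [inner_eq_sum, Finset.mul_sum]
    refine Finset.sum_congr rfl fun i _ => ?_
    rw [inner_grad, inner_grad]; ring
  have e2 : ∀ x, φ x ^ 2 * lapl η x =
      ∑ i, φ x ^ 2 * fderiv ℝ (fun y => fderiv ℝ η y (ee i)) x (ee i) := by
    intro x
    unfold lapl
    rw [Finset.mul_sum]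
  simp_rw [e1, e2]
  have cs : HasCompactSupport (fun x => φ x ^ 2) :=
    h.2.1.comp_left (g := fun t : ℝ => t ^ 2) (by simp)
  have hc : ∀ i, Continuous (fun x => fderiv ℝ (fun y => fderiv ℝ η y (ee i)) x (ee i)) := by
    intro i
    exact (((contDiff_dir (k := 1) hη (ee i)).continuous_fderiv (by simp))).clm_apply continuous_const
  rw [integral_finsetSum, integral_finsetSum, Finset.mul_sum]
  · refine Finset.sum_congr rfl fun i _ => ?_
    exact ibp h (contDiff_dir (k := 1) hη (ee i)) (ee i)
  · intro i _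
    exact Continuous.integrable_of_hasCompactSupport ((h.cont.pow 2).mul (hc i)) cs.mul_right
  · intro i _
    refine Continuous.integrable_of_hasCompactSupport ((h.cont.mul
      (h.contFderiv.clm_apply continuous_const)).mul
      ((contDiff_dir (k := 1) hη (ee i)).continuous)) ?_
    exact (h.2.1.mul_right).mul_right

theorem q_weight (lam : ℝ) (h : IsTest Ω φ) (hη : ContDiff ℝ (⊤ : ℕ∞) η) :
    q lam φ (fun x => η x * φ x) + ∫ x, φ x ^ 2 * (1 / 2 * lapl η x + lam * η x) =
      ∫ x, η x * ‖gradient φ x‖ ^ 2 := by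
  have hηd : Differentiable ℝ η := hη.differentiable (by simp)
  have hηg : Continuous (gradient η) :=
    (InnerProductSpace.toDual ℝ (E n)).symm.continuous.comp (hη.continuous_fderiv (by simp))
  have hl : Continuous (lapl η) := by
    unfold lapl
    refine continuous_finsetSum _ fun i _ => ?_
    exact (((contDiff_dir (k := 1) hη (ee i)).continuous_fderiv (by simp))).clm_apply continuous_const
  have cs : HasCompactSupport (fun x => φ x ^ 2) :=
    h.2.1.comp_left (g := fun t : ℝ => t ^ 2) (by simp)
  unfold q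
  have e1 : ∀ x, inner ℝ (gradient φ x) (gradient (fun x => η x * φ x) x) =
      η x * ‖gradient φ x‖ ^ 2 + φ x * inner ℝ (gradient φ x) (gradient η x) := by
    intro x
    rw [gradient_mul' hηd h.diff, inner_add_right, inner_smul_right, inner_smul_right,
      real_inner_self_eq_norm_sq]
  have e2 : ∀ x, φ x ^ 2 * (1 / 2 * lapl η x + lam * η x) =
      1 / 2 * (φ x ^ 2 * lapl η x) + lam * (φ x * (η x * φ x)) := by intro x; ring
  simp_rw [e1, e2]
  have i1 : Integrable (fun x => η x * ‖gradient φ x‖ ^ 2) := by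
    refine Continuous.integrable_of_hasCompactSupport (hη.continuous.mul (h.contGrad.norm.pow 2)) ?_
    exact (h.grad_support.comp_left (g := fun t : E n => ‖t‖ ^ 2) (by simp)).mul_left
  have i2 : Integrable (fun x => φ x * inner ℝ (gradient φ x) (gradient η x)) :=
    Continuous.integrable_of_hasCompactSupport (h.cont.mul (h.contGrad.inner hηg)) h.2.1.mul_right
  have i3 : Integrable (fun x => 1 / 2 * (φ x ^ 2 * lapl η x)) :=
    (Continuous.integrable_of_hasCompactSupport ((h.cont.pow 2).mul hl) cs.mul_right).const_mul _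
  have i4 : Integrable (fun x => lam * (φ x * (η x * φ x))) :=
    (h.int_mul (hη.continuous.mul h.cont)).const_mul _
  rw [integral_add i1 i2, integral_add i3 i4, integral_const_mul, integral_const_mul,
    int_weight h hη]
  ring

end Pool.Agent.Y288.SN
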